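import Mathlib
import Pool.Agent.helper50.MA.Spec2

set_option autoImplicit false

open MeasureTheory Set Filter Topology
open scoped ContDiff Real

namespace MAP

theorem D5_intc {X : Type} [TopologicalSpace X] [CompactSpace X] [T2Space X] [SecondCountableTopology X]
    [MeasurableSpace X] [BorelSpace X] (ν : Measure X) [IsFiniteMeasure ν] (h : X → ℝ) (hc : Continuous h) :
    Integrable h ν :=
  (BoundedContinuousFunction.mkOfCompact ⟨h, hc⟩).integrable ν

/-- comparison of measures on an open set from comparison of integrals of test functions -/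
theorem D5_weak {X : Type} [TopologicalSpace X] [CompactSpace X] [T2Space X] [SecondCountableTopology X]
    [MeasurableSpace X] [BorelSpace X] (ν ν' : Measure X) [IsFiniteMeasure ν] [IsFiniteMeasure ν']
    (O : Set X) (hO : IsOpen O) (c c' : ℝ) (hc : 0 ≤ c) (hc' : 0 ≤ c')
    (H : ∀ h : X → ℝ, Continuous h → (∀ x, 0 ≤ h x) → (∀ x, x ∉ O → h x = 0) →
      c * ∫ x, h x ∂ν ≤ c' * ∫ x, h x ∂ν')
    (A : Set X) (hA : MeasurableSet A) (hAO : A ⊆ O) : c * ν.real A ≤ c' * ν'.real A := by
  apply le_of_forall_pos_le_add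
  intro ε hε
  set δ : ℝ := ε / (c + c' + 1) with hδ
  have hδ0 : 0 < δ := by positivity
  have hδe : ENNReal.ofReal δ ≠ 0 := by
    simpa using hδ0
  obtain ⟨F, hFA, hFc, hF⟩ := hA.exists_isCompact_lt_add (measure_ne_top ν A) hδe
  obtain ⟨G, hFG, hGo, hG⟩ := F.exists_isOpen_lt_add (measure_ne_top ν' F) hδe
  have hFr : ν.real A ≤ ν.real F + δ := by
    have := ENNReal.toReal_mono (by simp [measure_ne_top]) hF.le
    rw [ENNReal.toReal_add (measure_ne_top _ _) ENNReal.ofReal_ne_top, ENNReal.toReal_ofReal hδ0.le] at this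
    exact this
  have hGr : ν'.real G ≤ ν'.real F + δ := by
    have := ENNReal.toReal_mono (by simp [measure_ne_top]) hG.le
    rw [ENNReal.toReal_add (measure_ne_top _ _) ENNReal.ofReal_ne_top, ENNReal.toReal_ofReal hδ0.le] at this
    exact this
  obtain ⟨f, hf0, hf1, hf⟩ := exists_continuous_zero_one_of_isClosed (s := (G ∩ O)ᶜ) (t := F)
    (hGo.inter hO).isClosed_compl hFc.isClosed
    (Set.disjoint_left.2 (fun x hx hxF => hx ⟨hFG hxF, hAO (hFA hxF)⟩))
  have hh := H f f.continuous (fun x => (hf x).1) (fun x hx => hf0 (fun hx' => hx hx'.2))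
  have i1 : ν.real F ≤ ∫ x, f x ∂ν := by
    have e : ∫ x, F.indicator (fun _ => (1 : ℝ)) x ∂ν = ν.real F := by
      rw [integral_indicator hFc.measurableSet]; simp [Measure.real]
    rw [← e]
    apply integral_mono_of_nonneg
    · exact Eventually.of_forall (fun x => Set.indicator_nonneg (fun _ _ => zero_le_one) x)
    · exact D5_intc ν f f.continuous
    · apply Eventually.of_forall
      intro x
      by_cases hx : x ∈ F
      · rw [Set.indicator_of_mem hx, hf1 hx]; simp
      · rw [Set.indicator_of_notMem hx]; exact (hf x).1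
  have i2 : ∫ x, f x ∂ν' ≤ ν'.real G := by
    have e : ∫ x, G.indicator (fun _ => (1 : ℝ)) x ∂ν' = ν'.real G := by
      rw [integral_indicator hGo.measurableSet]; simp [Measure.real]
    rw [← e]
    apply integral_mono_of_nonneg
    · exact Eventually.of_forall (fun x => (hf x).1)
    · exact (integrable_const (1 : ℝ)).indicator hGo.measurableSet
    · apply Eventually.of_forall
      intro x
      by_cases hx : x ∈ G
      · simp only [Set.indicator_of_mem hx]; exact (hf x).2
      · simp only [Set.indicator_of_notMem hx]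
        exact (hf0 (fun hx' => hx hx'.1)).le
  have i3 : ν'.real F ≤ ν'.real A := measureReal_mono hFA
  have hsum : (c + c') * δ ≤ ε := by
    rw [hδ, mul_div_assoc', div_le_iff₀ (by positivity)]
    nlinarith
  calc c * ν.real A ≤ c * (ν.real F + δ) := mul_le_mul_of_nonneg_left hFr hc
    _ ≤ c * (∫ x, f x ∂ν) + c * δ := by nlinarith [mul_le_mul_of_nonneg_left i1 hc]
    _ ≤ c' * (∫ x, f x ∂ν') + c * δ := by linarith
    _ ≤ c' * (ν'.real A + δ) + c * δ := by
      have : c' * (∫ x, f x ∂ν') ≤ c' * (ν'.real A + δ) :=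
        mul_le_mul_of_nonneg_left (by linarith) hc'
      linarith
    _ ≤ c' * ν'.real A + ε := by nlinarith

/-- comparison of integrals from comparison of measures on an open set -/
theorem D5_int {X : Type} [TopologicalSpace X] [CompactSpace X] [T2Space X] [SecondCountableTopology X]
    [MeasurableSpace X] [BorelSpace X] (ν ν' : Measure X) [IsFiniteMeasure ν] [IsFiniteMeasure ν']
    (O : Set X) (hO : IsOpen O) (c c' : ℝ) (hc : 0 ≤ c) (hc' : 0 ≤ c')
    (H : ∀ A, MeasurableSet A → A ⊆ O → c * ν.real A ≤ c' * ν'.real A)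
    (h : X → ℝ) (hh : Continuous h) (h0 : ∀ x, 0 ≤ h x) (hz : ∀ x, x ∉ O → h x = 0) :
    c * ∫ x, h x ∂ν ≤ c' * ∫ x, h x ∂ν' := by
  have hle : ENNReal.ofReal c • ν.restrict O ≤ ENNReal.ofReal c' • ν'.restrict O := by
    rw [Measure.le_iff]
    intro s hs
    rw [Measure.smul_apply, Measure.smul_apply, Measure.restrict_apply hs, Measure.restrict_apply hs,
      smul_eq_mul, smul_eq_mul]
    have h1 := H (s ∩ O) (hs.inter hO.measurableSet) inter_subset_right
    have h2 := ENNReal.ofReal_le_ofReal h1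
    rw [ENNReal.ofReal_mul hc, ENNReal.ofReal_mul hc', ofReal_measureReal, ofReal_measureReal] at h2
    exact h2
  have key := integral_mono_measure hle (Eventually.of_forall h0)
    (by
      apply Integrable.smul_measure _ ENNReal.ofReal_ne_top
      exact (D5_intc ν' h hh).integrableOn)
  rw [integral_smul_measure, integral_smul_measure, ENNReal.toReal_ofReal hc, ENNReal.toReal_ofReal hc',
    setIntegral_eq_integral_of_forall_compl_eq_zero hz, setIntegral_eq_integral_of_forall_compl_eq_zero hz,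
    smul_eq_mul, smul_eq_mul] at key
  exact key

theorem D5_zero_mem {X : Type} [TopologicalSpace X] (K : KS X) : (fun _ : X => (0 : ℝ)) ∈ K.PS := by
  refine ⟨fun i => contDiffOn_const, fun i y hy ξ => ?_⟩
  have e : K.pot i (fun _ => 0) = K.ρ i := by
    funext z
    simp [KS.pot]
  rw [e]
  by_cases hξ : ξ = 0
  · rw [hξ]; simp [lap, D2]
  · exact (K.ρ_pos i y hy ξ hξ).le

theorem D5_unif {X : Type} [TopologicalSpace X] [CompactSpace X] [T2Space X] (hR : R3_stmt) (K : KS X)
    (g : X → ℝ) (hg : g ∈ K.C0) : ∃ v : ℕ → X → ℝ, (∀ n, v n ∈ K.PS) ∧ KS.Unif v g := by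
  have h1 : ∀ n : ℕ, ∃ h ∈ K.PS, ∀ x, |h x - g x| ≤ 1 / ((n : ℝ) + 1) := fun n =>
    hR X K g hg _ (by positivity)
  choose v hv hv' using h1
  refine ⟨v, hv, ?_⟩
  intro ε hε
  have h2 := (tendsto_one_div_add_atTop_nhds_zero_nat (𝕜 := ℝ)).eventually (gt_mem_nhds hε)
  filter_upwards [h2] with n hn x
  exact (hv' n x).trans hn.le

theorem D5_unif_const {X : Type} (g : X → ℝ) : KS.Unif (fun _ : ℕ => g) g := by
  intro ε hε
  filter_upwards with n x
  simpa using hε.le

theorem D5 (h11 : S11_stmt) (h1 : D1_stmt) (hR : R3_stmt) (h3 : S3_stmt) : D5_stmt := by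
  intro X _ _ _ _ _ _ K χ C i U hχ hC hχC hU hUt hlap g hg A hA hAU
  have hsub : K.PS ⊆ K.C0 := (h3 X K).2.2.2.2.2.2.2
  have z0 := D5_zero_mem K
  obtain ⟨v, hv, hvu⟩ := D5_unif hR K g hg
  obtain ⟨hex, hag⟩ := h1 X K
  have m1 := (hex _ (hsub z0) g hg).1
  have m2 := (hex _ (hsub hχC) g hg).1
  haveI := m1.1
  haveI := m2.1
  have hOp : IsOpen {x | x ∈ (K.e i).source ∧ K.e i x ∈ U} := by
    have := (K.e i).isOpen_inter_preimage hU
    exact this
  refine D5_weak _ _ {x | x ∈ (K.e i).source ∧ K.e i x ∈ U} hOp (C + 1) C (by linarith) hC.le ?_ A hA hAU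
  intro h hh h0 hz
  have t1 := m1.2 (fun _ => fun _ => 0) v (fun _ => z0) hv (D5_unif_const _) hvu h hh
  have t2 := m2.2 (fun _ => fun x => χ x / C) v (fun _ => hχC) hv (D5_unif_const _) hvu h hh
  refine le_of_tendsto_of_tendsto' (t1.const_mul (C + 1)) (t2.const_mul C) ?_
  intro n
  have f1 : IsFiniteMeasure (K.Ms (fun _ => 0) (v n)) := by
    rw [← hag _ z0 _ (hv n)]; exact (hex _ (hsub z0) _ (hsub (hv n))).1.1
  have f2 : IsFiniteMeasure (K.Ms (fun x => χ x / C) (v n)) := by
    rw [← hag _ hχC _ (hv n)]; exact (hex _ (hsub hχC) _ (hsub (hv n))).1.1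
  exact D5_int _ _ _ hOp (C + 1) C (by linarith) hC.le
    (fun B hB hBO => h11 X K χ C i U hχ hC hχC hU hUt hlap (v n) (hv n) B hB hBO) h hh h0 hz

end MAP
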