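import Mathlib
import Pool.Agent.helper50.MA.Spec2
import Pool.Agent.helper45.MA.D5

set_option autoImplicit false

open MeasureTheory Set Filter Topology
open scoped ContDiff Real

namespace MAP

/-- smooth cut-off functions -/
theorem D4_cut {X : Type} [TopologicalSpace X] [CompactSpace X] [T2Space X] (h6 : S6_stmt) (K : KS X)
    (F G : Set X) (hF : IsClosed F) (hG : IsOpen G) (hFG : F ⊆ G) :
    ∃ h : X → ℝ, K.Smo h ∧ (∀ x, 0 ≤ h x) ∧ (∀ x, h x ≤ 1) ∧ (∀ x ∈ F, h x = 1) ∧ tsupport h ⊆ G := by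
  obtain ⟨V, hVo, hFV, hVG⟩ := normal_exists_closure_subset hF hG hFG
  obtain ⟨f, hf0, hf1, hf⟩ := exists_continuous_zero_one_of_isClosed (s := Vᶜ) (t := F)
    hVo.isClosed_compl hF (Set.disjoint_left.2 (fun x hx hxF => hx (hFV hxF)))
  obtain ⟨h', hs, hc⟩ := h6 X K f f.continuous (1 / 4) (by norm_num)
  refine ⟨fun x => Real.smoothTransition (2 * h' x - 1 / 2), ?_, ?_, ?_, ?_, ?_⟩
  · intro i
    have e : K.lo i (fun x => Real.smoothTransition (2 * h' x - 1 / 2)) =
        (fun t : ℝ => Real.smoothTransition (2 * t - 1 / 2)) ∘ K.lo i h' := rfl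
    rw [e]
    have c1 : ContDiff ℝ ∞ (fun t : ℝ => Real.smoothTransition (2 * t - 1 / 2)) := by
      apply Real.smoothTransition.contDiff.comp
      exact (contDiff_const.mul contDiff_id).sub contDiff_const
    exact c1.comp_contDiffOn (hs i)
  · intro x; exact Real.smoothTransition.nonneg _
  · intro x; exact Real.smoothTransition.le_one _
  · intro x hx
    apply Real.smoothTransition.one_of_one_le
    have h1 := hc x
    rw [hf1 hx] at h1
    have h2 := abs_le.1 h1
    simp at h2
    linarith [h2.2]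
  · refine subset_trans (closure_mono ?_) hVG
    intro x hx
    by_contra hxV
    apply hx
    apply Real.smoothTransition.zero_of_nonpos
    have h1 := hc x
    rw [hf0 hxV] at h1
    have h2 := abs_le.1 h1
    simp at h2
    linarith [h2.1]

theorem D4_weak {X : Type} [TopologicalSpace X] [CompactSpace X] [T2Space X] [SecondCountableTopology X]
    [MeasurableSpace X] [BorelSpace X] (h6 : S6_stmt) (K : KS X)
    (ν ν' : Measure X) [IsFiniteMeasure ν] [IsFiniteMeasure ν']
    (O : Set X) (hO : IsOpen O)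
    (H : ∀ h : X → ℝ, K.Smo h → Continuous h → (∀ x, 0 ≤ h x) → (∀ x, h x ≤ 1) → tsupport h ⊆ O →
      ∫ x, h x ∂ν ≤ ∫ x, h x ∂ν') (hcont : ∀ h : X → ℝ, K.Smo h → Continuous h)
    (A : Set X) (hA : MeasurableSet A) (hAO : A ⊆ O) : ν.real A ≤ ν'.real A := by
  apply le_of_forall_pos_le_add
  intro ε hε
  set δ : ℝ := ε / 2 with hδ
  have hδ0 : 0 < δ := by positivity
  have hδe : ENNReal.ofReal δ ≠ 0 := by
    simpa using hδ0
  obtain ⟨F, hFA, hFc, hF⟩ := hA.exists_isCompact_lt_add (measure_ne_top ν A) hδe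
  obtain ⟨G, hFG, hGo, hG⟩ := F.exists_isOpen_lt_add (measure_ne_top ν' F) hδe
  have hFr : ν.real A ≤ ν.real F + δ := by
    have := ENNReal.toReal_mono (by simp [measure_ne_top]) hF.le
    rw [ENNReal.toReal_add (measure_ne_top _ _) ENNReal.ofReal_ne_top, ENNReal.toReal_ofReal hδ0.le] at this
    exact this
  have hGr : ν'.real G ≤ ν'.real F + δ := by
    have := ENNReal.toReal_mono (by simp [measure_ne_top]) hG.le
    rw [ENNReal.toReal_add (measure_ne_top _ _) ENNReal.ofReal_ne_top, ENNReal.toReal_ofReal hδ0.le] at this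
    exact this
  obtain ⟨f, hs, hf0, hf1, hfF, hft⟩ := D4_cut h6 K F (G ∩ O) hFc.isClosed (hGo.inter hO)
    (fun x hx => ⟨hFG hx, hAO (hFA hx)⟩)
  have hfc := hcont f hs
  have hh := H f hs hfc hf0 hf1 (hft.trans inter_subset_right)
  have i1 : ν.real F ≤ ∫ x, f x ∂ν := by
    have e : ∫ x, F.indicator (fun _ => (1 : ℝ)) x ∂ν = ν.real F := by
      rw [integral_indicator hFc.measurableSet]; simp [Measure.real]
    rw [← e]
    apply integral_mono_of_nonneg
    · exact Eventually.of_forall (fun x => Set.indicator_nonneg (fun _ _ => zero_le_one) x)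
    · exact D5_intc ν f hfc
    · apply Eventually.of_forall
      intro x
      by_cases hx : x ∈ F
      · rw [Set.indicator_of_mem hx, hfF x hx]
      · rw [Set.indicator_of_notMem hx]; exact hf0 x
  have i2 : ∫ x, f x ∂ν' ≤ ν'.real G := by
    have e : ∫ x, G.indicator (fun _ => (1 : ℝ)) x ∂ν' = ν'.real G := by
      rw [integral_indicator hGo.measurableSet]; simp [Measure.real]
    rw [← e]
    apply integral_mono_of_nonneg
    · exact Eventually.of_forall hf0
    · exact (integrable_const (1 : ℝ)).indicator hGo.measurableSet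
    · apply Eventually.of_forall
      intro x
      by_cases hx : x ∈ G
      · simp only [Set.indicator_of_mem hx]; exact hf1 x
      · simp only [Set.indicator_of_notMem hx]
        have : f x = 0 := by
          by_contra hne
          exact hx (hft (subset_tsupport f hne)).1
        exact this.le
  have i3 : ν'.real F ≤ ν'.real A := measureReal_mono hFA
  have hsum : δ + δ = ε := by rw [hδ]; ring
  linarith

/-- locality for smooth functions against a continuous one -/
theorem D4_loc (h1 : D1_stmt) (hR : R3_stmt) (h3 : S3_stmt) (h9 : S9_stmt)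
    {X : Type} [TopologicalSpace X] [CompactSpace X] [T2Space X] [SecondCountableTopology X]
    [MeasurableSpace X] [BorelSpace X] (K : KS X) (a b g : X → ℝ) (ha : a ∈ K.PS) (hb : b ∈ K.PS) (hg : g ∈ K.C0)
    (W : Set X) (hW : IsOpen W) (hab : ∀ x ∈ W, a x = b x) (A : Set X) (hA : MeasurableSet A) (hAW : A ⊆ W) :
    (K.M a g).real A ≤ (K.M b g).real A := by
  have hsub : K.PS ⊆ K.C0 := (h3 X K).2.2.2.2.2.2.2
  obtain ⟨v, hv, hvu⟩ := D5_unif hR K g hg
  obtain ⟨hex, hag⟩ := h1 X K
  have m1 := (hex _ (hsub ha) g hg).1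
  have m2 := (hex _ (hsub hb) g hg).1
  have i1 := m1.1
  have i2 := m2.1
  have key := D5_weak (K.M a g) (K.M b g) W hW 1 1 zero_le_one zero_le_one ?_ A hA hAW
  · simpa using key
  intro h hh h0 hz
  have t1 := m1.2 (fun _ => a) v (fun _ => ha) hv (D5_unif_const _) hvu h hh
  have t2 := m2.2 (fun _ => b) v (fun _ => hb) hv (D5_unif_const _) hvu h hh
  refine le_of_tendsto_of_tendsto' (t1.const_mul 1) (t2.const_mul 1) ?_
  intro n
  have f1 : IsFiniteMeasure (K.Ms a (v n)) := by
    rw [← hag _ ha _ (hv n)]; exact (hex _ (hsub ha) _ (hsub (hv n))).1.1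
  have f2 : IsFiniteMeasure (K.Ms b (v n)) := by
    rw [← hag _ hb _ (hv n)]; exact (hex _ (hsub hb) _ (hsub (hv n))).1.1
  refine D5_int _ _ _ hW 1 1 zero_le_one zero_le_one ?_ h hh h0 hz
  intro B hB hBW
  have := (h9 X K).2.2.2.2.2.2.1 a ha b hb (v n) (hv n) W hW hab B hB hBW
  rw [one_mul, one_mul]
  unfold Measure.real
  rw [this]

theorem D4_int {X : Type} [TopologicalSpace X] [MeasurableSpace X] (ν ν' : Measure X)
    [IsFiniteMeasure ν] [IsFiniteMeasure ν'] (W : Set X) (hW : MeasurableSet W)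
    (H : ∀ A, MeasurableSet A → A ⊆ W → ν.real A = ν'.real A) (u : X → ℝ) (hu : ∀ x, x ∉ W → u x = 0) :
    ∫ x, u x ∂ν = ∫ x, u x ∂ν' := by
  have e : ν.restrict W = ν'.restrict W := by
    ext s hs
    rw [Measure.restrict_apply hs, Measure.restrict_apply hs]
    have h1 := H (s ∩ W) (hs.inter hW) inter_subset_right
    rw [← ofReal_measureReal (μ := ν), ← ofReal_measureReal (μ := ν'), h1]
  rw [← setIntegral_eq_integral_of_forall_compl_eq_zero (μ := ν) hu,
    ← setIntegral_eq_integral_of_forall_compl_eq_zero (μ := ν') hu, e]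

theorem D4 (h1 : D1_stmt) (h3' : D3_stmt) (hR : R3_stmt) (h3 : S3_stmt) (h5 : S5_stmt) (h6 : S6_stmt)
    (h9 : S9_stmt) : D4_stmt := by
  intro X _ _ _ _ _ _ K f hf f' hf' g hg U hU hff A hA hAU
  have hsub : K.PS ⊆ K.C0 := (h3 X K).2.2.2.2.2.2.2
  have z0 := D5_zero_mem K
  obtain ⟨hex, hag⟩ := h1 X K
  have m1 := (hex f hf g hg).1.1
  have m2 := (hex f' hf' g hg).1.1
  have hcont : ∀ h : X → ℝ, K.Smo h → Continuous h := (h3 X K).2.2.2.1
  have main : ∀ h : X → ℝ, K.Smo h → Continuous h → (∀ x, 0 ≤ h x) → (∀ x, h x ≤ 1) → tsupport h ⊆ U →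
      ∫ x, h x ∂K.M f g = ∫ x, h x ∂K.M f' g := by
    intro h hs _ _ _ ht
    obtain ⟨C, hC, hCh⟩ := h5 X K h hs
    have hm := (hCh C le_rfl).1
    have st := (h3' X K).1 f hf f' hf' g hg _ (hsub hm)
    have hW : IsOpen (tsupport h)ᶜ := (isClosed_tsupport h).isOpen_compl
    have hab : ∀ x ∈ (tsupport h)ᶜ, (fun x => h x / C) x = (fun _ => (0 : ℝ)) x := by
      intro x hx
      have : h x = 0 := image_eq_zero_of_notMem_tsupport hx
      simp [this]
    have n1 := (hex _ (hsub hm) g hg).1.1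
    have n2 := (hex _ (hsub z0) g hg).1.1
    have e1 : ∫ x, (f x - f' x) ∂K.M (fun x => h x / C) g = ∫ x, (f x - f' x) ∂K.M (fun _ => 0) g := by
      refine D4_int _ _ (tsupport h)ᶜ hW.measurableSet ?_ _ ?_
      · intro B hB hBW
        apply le_antisymm
        · exact D4_loc h1 hR h3 h9 K _ _ g hm z0 hg _ hW hab B hB hBW
        · exact D4_loc h1 hR h3 h9 K _ _ g z0 hm hg _ hW (fun x hx => (hab x hx).symm) B hB hBW
      · intro x hx
        have hx' : x ∈ U := ht (not_not.1 hx)
        rw [hff x hx', sub_self]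
    rw [e1, sub_self, integral_div, integral_div, ← sub_div, div_eq_zero_iff] at st
    rcases st with st | st
    · linarith
    · exact absurd st hC.ne'
  have r1 := D4_weak h6 K (K.M f g) (K.M f' g) U hU
    (fun h a b c d e => (main h a b c d e).le) hcont A hA hAU
  have r2 := D4_weak h6 K (K.M f' g) (K.M f g) U hU
    (fun h a b c d e => (main h a b c d e).ge) hcont A hA hAU
  rw [← ofReal_measureReal (μ := K.M f g), ← ofReal_measureReal (μ := K.M f' g), le_antisymm r1 r2]

end MAP
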