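import Mathlib
import Pool.Agent.helper50.MA.SpecF

set_option autoImplicit false

open MeasureTheory Set Filter Topology
open scoped ContDiff Real

namespace MAP

theorem F1_intc {X : Type} [TopologicalSpace X] [CompactSpace X] [T2Space X] [SecondCountableTopology X]
    [MeasurableSpace X] [BorelSpace X] (ν : Measure X) [IsFiniteMeasure ν] (h : X → ℝ) (hc : Continuous h) :
    Integrable h ν :=
  (BoundedContinuousFunction.mkOfCompact ⟨h, hc⟩).integrable ν

theorem F1_bd {X : Type} [TopologicalSpace X] [MeasurableSpace X]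
    (T : MATh X) (a b : X → ℝ) (ha : a ∈ T.C0) (hb : b ∈ T.C0) (u : X → ℝ) (ε : ℝ) (hu : ∀ x, |u x| ≤ ε) :
    |∫ x, u x ∂T.M a b| ≤ ε * T.V := by
  haveI := T.fin a ha b hb
  have h1 := norm_integral_le_of_norm_le_const (μ := T.M a b) (f := u) (C := ε)
    (Eventually.of_forall (fun x => by rw [Real.norm_eq_abs]; exact hu x))
  rw [T.mass a ha b hb, Real.norm_eq_abs] at h1
  exact h1

theorem F1 : F1_stmt := by
  intro X _ _ _ _ _ _ T
  have h0 : (fun _ => (0 : ℝ)) ∈ T.C0 := T.ps_c0 (T.const_ps 0)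
  have part1 : ∀ f ∈ T.C0, ∀ f' ∈ T.C0, ∀ h ∈ T.C0, ∀ ε : ℝ, (∀ x, |f x - f' x| ≤ ε) →
      |(∫ x, h x ∂T.M f f) - ∫ x, h x ∂T.M f' f'| ≤ 4 * T.V * ε := by
    intro f hf f' hf' h hh ε hε
    have s1 := T.stokes f hf f' hf' f hf h hh
    have s2 := T.stokes f hf f' hf' f' hf' h hh
    rw [T.symm f hf f' hf'] at s2
    have b1 := F1_bd T h f hh hf (fun x => f x - f' x) ε hε
    have b2 := F1_bd T (fun _ => 0) f h0 hf (fun x => f x - f' x) ε hε
    have b3 := F1_bd T h f' hh hf' (fun x => f x - f' x) ε hε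
    have b4 := F1_bd T (fun _ => 0) f' h0 hf' (fun x => f x - f' x) ε hε
    rw [abs_le] at b1 b2 b3 b4 ⊢
    constructor <;> nlinarith
  refine ⟨part1, ?_⟩
  intro f hf g hg hfg h hh
  rw [Metric.tendsto_atTop]
  intro ε hε
  have hV := T.V_pos
  obtain ⟨F, hF, C, hC, hd⟩ := T.dense h hh (ε / (8 * T.V)) (by positivity)
  have hFc := T.ps_c0 hF
  obtain ⟨N, hN⟩ := eventually_atTop.1 (hfg (ε / (16 * T.V * C)) (by positivity))
  refine ⟨N, fun n hn => ?_⟩
  have hcl := hN n hn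
  have k1 := part1 (f n) (hf n) g hg F hFc _ hcl
  have key : ∀ a ∈ T.C0, |(∫ x, h x ∂T.M a a) - C * ∫ x, F x ∂T.M a a| ≤ ε / (8 * T.V) * T.V := by
    intro a ha
    haveI := T.fin a ha a ha
    have e1 : (∫ x, h x ∂T.M a a) - C * ∫ x, F x ∂T.M a a = ∫ x, (h x - C * F x) ∂T.M a a := by
      rw [integral_sub (F1_intc _ h hh) ((F1_intc _ F (T.cont F hFc)).const_mul C), integral_const_mul]
    rw [e1]
    exact F1_bd T a a ha ha (fun x => h x - C * F x) _ hd
  have k2 := key (f n) (hf n)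
  have k3 := key g hg
  have e2 : ε / (8 * T.V) * T.V = ε / 8 := by field_simp
  have e3 : C * (4 * T.V * (ε / (16 * T.V * C))) = ε / 4 := by
    field_simp
    norm_num
  rw [e2] at k2 k3
  have k4 : |C * (∫ x, F x ∂T.M (f n) (f n)) - C * ∫ x, F x ∂T.M g g| ≤ ε / 4 := by
    rw [← mul_sub, abs_mul, abs_of_pos hC, ← e3]
    exact mul_le_mul_of_nonneg_left k1 hC.le
  rw [Real.dist_eq]
  rw [abs_le] at k2 k3 k4
  rw [abs_lt]
  constructor <;> linarith [k2.1, k2.2, k3.1, k3.2, k4.1, k4.2]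

end MAP
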