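import Mathlib
import Pool.Agent.helper50.MA.Spec2

set_option autoImplicit false

open MeasureTheory Set Filter Topology
open scoped ContDiff Real

namespace MAP

theorem R1 : R1_stmt := by
  intro n σ hn hσ
  have hne : Nonempty (Fin n) := ⟨⟨0, hn⟩⟩
  let φ : ContDiffBump (0 : Fin n → ℝ) := ⟨σ / 4, σ / 2, by positivity, by linarith⟩
  obtain ⟨θ, hθ⟩ : ∃ θ : (Fin n → ℝ) → ℝ, θ = φ.normed volume := ⟨_, rfl⟩
  have θc : ContDiff ℝ ∞ θ := by rw [hθ]; exact φ.contDiff_normed
  have θs : HasCompactSupport θ := by rw [hθ]; exact φ.hasCompactSupport_normed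
  have θ0 : ∀ u, 0 ≤ θ u := fun u => by rw [hθ]; exact φ.nonneg_normed u
  have θ1 : ∫ u, θ u = 1 := by rw [hθ]; exact φ.integral_normed
  have θneg : ∀ u, θ (-u) = θ u := fun u => by rw [hθ]; exact φ.normed_neg u
  have θsup : ∀ u, θ u ≠ 0 → ∀ i, |u i| < σ / 2 := by
    intro u hu i
    have h1 : u ∈ Function.support (φ.normed volume) := by rw [← hθ]; exact hu
    rw [φ.support_normed_eq] at h1
    have h2 : ‖u‖ < σ / 2 := by simpa using h1
    exact lt_of_le_of_lt (norm_le_pi_norm u i) h2
  obtain ⟨M, hM⟩ : ∃ M : (Fin n → ℝ) → ℝ, M = fun t => Finset.univ.sup' Finset.univ_nonempty t := ⟨_, rfl⟩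
  have M1 : ∀ t i, t i ≤ M t := fun t i => by
    rw [hM]; exact Finset.le_sup' t (Finset.mem_univ i)
  have M2 : ∀ t a, (∀ i, t i ≤ a) → M t ≤ a := fun t a h => by
    rw [hM]; exact Finset.sup'_le _ _ (fun i _ => h i)
  have M3 : ∀ t, ∃ i, M t = t i := fun t => by
    rw [hM]
    obtain ⟨i, _, hi⟩ := Finset.exists_mem_eq_sup' (Finset.univ_nonempty (α := Fin n)) t
    exact ⟨i, hi⟩
  have Mc : Continuous M := by
    rw [hM]
    exact Continuous.finset_sup'_apply Finset.univ_nonempty (fun i _ => continuous_apply i)
  have Mmono : ∀ t t' : Fin n → ℝ, (∀ i, t i ≤ t' i) → M t ≤ M t' := fun t t' h =>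
    M2 _ _ (fun i => (h i).trans (M1 t' i))
  have int : ∀ t : Fin n → ℝ, Integrable (fun u => θ u * M (t - u)) := by
    intro t
    apply Continuous.integrable_of_hasCompactSupport
    · exact θc.continuous.mul (Mc.comp (continuous_const.sub continuous_id))
    · exact θs.mul_right
  have θint : Integrable θ := θc.continuous.integrable_of_hasCompactSupport θs
  have cint : ∀ i : Fin n, Integrable (fun u : Fin n → ℝ => θ u * u i) := by
    intro i
    apply Continuous.integrable_of_hasCompactSupport
    · exact θc.continuous.mul (continuous_apply i)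
    · exact θs.mul_right
  have odd : ∀ i : Fin n, ∫ u : Fin n → ℝ, θ u * u i = 0 := by
    intro i
    have h1 : ∫ u : Fin n → ℝ, θ (-u) * (-u) i = ∫ u : Fin n → ℝ, θ u * u i :=
      integral_neg_eq_self (fun u : Fin n → ℝ => θ u * u i) volume
    have h2 : ∫ u : Fin n → ℝ, θ (-u) * (-u) i = - ∫ u : Fin n → ℝ, θ u * u i := by
      rw [← integral_neg]
      congr 1
      funext u
      rw [θneg, Pi.neg_apply]
      ring
    linarith
  refine ⟨fun t => ∫ u, θ u * M (t - u), ?_, ?_, ?_, ?_, ?_, ?_, ?_⟩
  · have h1 := HasCompactSupport.contDiff_convolution_left (ContinuousLinearMap.lsmul ℝ ℝ) (μ := volume)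
      θs θc Mc.locallyIntegrable
    exact h1
  · refine ⟨convex_univ, ?_⟩
    intro x _ y _ a b ha hb hab
    simp only [smul_eq_mul]
    rw [← integral_const_mul, ← integral_const_mul, ← integral_add ((int x).const_mul a) ((int y).const_mul b)]
    apply integral_mono (int _) (((int x).const_mul a).add ((int y).const_mul b))
    intro u
    simp only
    have h1 : M (a • x + b • y - u) ≤ a * M (x - u) + b * M (y - u) := by
      apply M2
      intro i
      have hx := M1 (x - u) i
      have hy := M1 (y - u) i
      simp only [Pi.sub_apply, Pi.add_apply, Pi.smul_apply, smul_eq_mul] at hx hy ⊢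
      have hb' : b = 1 - a := by linarith
      have e : a * x i + b * y i - u i = a * (x i - u i) + b * (y i - u i) := by
        rw [hb']; ring
      rw [e]
      exact add_le_add (mul_le_mul_of_nonneg_left hx ha) (mul_le_mul_of_nonneg_left hy hb)
    calc θ u * M (a • x + b • y - u) ≤ θ u * (a * M (x - u) + b * M (y - u)) :=
          mul_le_mul_of_nonneg_left h1 (θ0 u)
      _ = a * (θ u * M (x - u)) + b * (θ u * M (y - u)) := by ring
  · intro t t' htt
    apply integral_mono (int t) (int t')
    intro u
    apply mul_le_mul_of_nonneg_left _ (θ0 u)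
    exact Mmono _ _ (fun i => sub_le_sub_right (htt i) _)
  · intro t i
    have h1 : ∫ u, θ u * (t i - u i) = t i := by
      have e : (fun u : Fin n → ℝ => θ u * (t i - u i)) = fun u => θ u * t i - θ u * u i := by
        funext u; ring
      rw [e, integral_sub (θint.mul_const _) (cint i), odd i, integral_mul_const, θ1]
      ring
    calc t i = ∫ u, θ u * (t i - u i) := h1.symm
      _ ≤ ∫ u, θ u * M (t - u) := by
        apply integral_mono _ (int t)
        · intro u
          exact mul_le_mul_of_nonneg_left (M1 (t - u) i) (θ0 u)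
        · have e : (fun u : Fin n → ℝ => θ u * (t i - u i)) = fun u => θ u * t i - θ u * u i := by
            funext u; ring
          rw [e]
          exact (θint.mul_const _).sub (cint i)
  · intro t
    obtain ⟨i, hi⟩ := M3 t
    refine ⟨i, ?_⟩
    calc ∫ u, θ u * M (t - u) ≤ ∫ u, θ u * (t i + σ) := by
          apply integral_mono (int t) (θint.mul_const _)
          intro u
          by_cases hu : θ u = 0
          · simp [hu]
          · apply mul_le_mul_of_nonneg_left _ (θ0 u)
            apply M2
            intro j
            have h1 := M1 t j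
            have h2 := (abs_lt.1 (θsup u hu j)).1
            rw [hi] at h1
            simp only [Pi.sub_apply]
            linarith
      _ = t i + σ := by rw [integral_mul_const, θ1, one_mul]
  · intro t c
    have h1 : ∀ u : Fin n → ℝ, M ((fun i => t i + c) - u) = M (t - u) + c := by
      intro u
      apply le_antisymm
      · apply M2
        intro i
        have := M1 (t - u) i
        simp only [Pi.sub_apply] at this ⊢
        linarith
      · have : M (t - u) ≤ M ((fun i => t i + c) - u) - c := by
          apply M2
          intro i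
          have := M1 ((fun i => t i + c) - u) i
          simp only [Pi.sub_apply] at this ⊢
          linarith
        linarith
    simp_rw [h1, mul_add]
    rw [integral_add (int t) (θint.mul_const _), integral_mul_const, θ1, one_mul]
  · intro t t' i k htt h1 h2
    have hik : k ≠ i := by
      intro he
      rw [he] at h1
      linarith
    have key : ∀ (a b : Fin n → ℝ) (u : Fin n → ℝ), (∀ l, l ≠ i → b l = a l) → a i + σ ≤ a k → θ u ≠ 0 →
        M (a - u) ≤ M (b - u) := by
      intro a b u hab ha hu
      apply M2
      intro l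
      by_cases hl : l = i
      · have h3 := (abs_lt.1 (θsup u hu i)).1
        have h4 := (abs_lt.1 (θsup u hu k)).2
        have h5 := M1 (b - u) k
        simp only [Pi.sub_apply] at h5 ⊢
        rw [hab k hik] at h5
        rw [hl]
        linarith
      · have h5 := M1 (b - u) l
        simp only [Pi.sub_apply] at h5 ⊢
        rw [hab l hl] at h5
        exact h5
    show ∫ u, θ u * M (t' - u) = ∫ u, θ u * M (t - u)
    apply integral_congr_ae
    apply Eventually.of_forall
    intro u
    show θ u * M (t' - u) = θ u * M (t - u)
    by_cases hu : θ u = 0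
    · rw [hu, zero_mul, zero_mul]
    · congr 1
      apply le_antisymm
      · refine key t' t u (fun l hl => (htt l hl).symm) ?_ hu
        rw [htt k hik]
        exact h2
      · exact key t t' u htt h1 hu

end MAP
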