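import Mathlib
import Pool.Agent.helper50.MA.Spec2

set_option autoImplicit false

open MeasureTheory Set Filter Topology
open scoped ContDiff Real

namespace MAP

theorem S1_two_le : (2 : WithTop ℕ∞) ≤ ∞ := by
  exact WithTop.coe_le_coe.2 (le_top : (2 : ℕ∞) ≤ ⊤)

theorem S1_haar : (volume : Measure C2).IsAddHaarMeasure := by
  unfold C2
  rw [Measure.volume_eq_prod]
  infer_instance

theorem S1_img {X : Type} [TopologicalSpace X] [MeasurableSpace X] [BorelSpace X]
    (e : OpenPartialHomeomorph X C2) (B : Set X) (hB : MeasurableSet B) (hBs : B ⊆ e.source) :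
    MeasurableSet (e '' B) := by
  rw [e.image_eq_target_inter_inv_preimage hBs]
  have h1 : Measurable (e.target.domRestrict e.symm) :=
    (continuousOn_iff_continuous_domRestrict.1 e.continuousOn_symm).measurable
  have h2 := MeasurableSet.subtype_image e.open_target.measurableSet (h1 hB)
  rw [Set.domRestrict_eq, preimage_comp, Subtype.image_preimage_coe] at h2
  exact h2

theorem S1_lap_germ (u u' : C2 → ℝ) (x : C2) (h : u =ᶠ[𝓝 x] u') (ξ : C2) : lap u x ξ = lap u' x ξ := by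
  have h1 : fderiv ℝ (fderiv ℝ u) x = fderiv ℝ (fderiv ℝ u') x := (h.fderiv).fderiv_eq
  simp only [lap, D2, h1]

theorem S1_D2_cont (u : C2 → ℝ) (s : Set C2) (hs : IsOpen s) (hu : ContDiffOn ℝ ∞ u s) (ξ η : C2) :
    ContinuousOn (fun x => D2 u x ξ η) s := by
  have h1 : ContDiffOn ℝ ∞ (fderiv ℝ u) s := hu.fderiv_of_isOpen hs (by simp)
  have h2 : ContinuousOn (fderiv ℝ (fderiv ℝ u)) s := h1.continuousOn_fderiv_of_isOpen hs (by simp)
  exact (h2.clm_apply continuousOn_const).clm_apply continuousOn_const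

theorem S1_dens_cont (u v : C2 → ℝ) (s : Set C2) (hs : IsOpen s) (hu : ContDiffOn ℝ ∞ u s) (hv : ContDiffOn ℝ ∞ v s) :
    ContinuousOn (fun x => dens u v x) s := by
  have cu := S1_D2_cont u s hs hu
  have cv := S1_D2_cont v s hs hv
  unfold dens hA hC hB hB' lap
  apply ContinuousOn.div_const
  exact (((((cu _ _).add (cu _ _)).mul ((cv _ _).add (cv _ _))).add
    (((cu _ _).add (cu _ _)).mul ((cv _ _).add (cv _ _)))).sub
    (continuousOn_const.mul (((cu _ _).add (cu _ _)).mul ((cv _ _).add (cv _ _))))).sub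
    (continuousOn_const.mul (((cu _ _).sub (cu _ _)).mul ((cv _ _).sub (cv _ _))))

section
variable {X : Type} [TopologicalSpace X] (K : KS X)

/-- domain of the transition map -/
def S1_V (i j : Fin K.n) : Set C2 := {y | y ∈ (K.e i).target ∧ (K.e i).symm y ∈ (K.e j).source}

theorem S1_V_open (i j : Fin K.n) : IsOpen (S1_V K i j) :=
  (K.e i).symm.isOpen_inter_preimage (K.e j).open_source

theorem S1_pot_smooth (i : Fin K.n) (f : X → ℝ) (hf : K.Smo f) : ContDiffOn ℝ ∞ (K.pot i f) (K.e i).target :=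
  (K.ρ_smooth i).add (hf i)

theorem S1_F_at (i j : Fin K.n) (y : C2) (hy : y ∈ S1_V K i j) :
    ContDiffAt ℂ ∞ (fun y => K.e j ((K.e i).symm y)) y :=
  (K.hol i j).contDiffAt ((S1_V_open K i j).mem_nhds hy)

theorem S1_comp_at (i j : Fin K.n) (y : C2) (hy : y ∈ S1_V K i j) (u : C2 → ℝ)
    (hu : ContDiffOn ℝ ∞ u (K.e j).target) : ContDiffAt ℝ ∞ (fun z => u (K.e j ((K.e i).symm z))) y := by
  have h1 : ContDiffAt ℝ ∞ (fun y => K.e j ((K.e i).symm y)) y := (S1_F_at K i j y hy).restrict_scalars ℝ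
  have h2 : ContDiffAt ℝ ∞ u (K.e j ((K.e i).symm y)) :=
    hu.contDiffAt ((K.e j).open_target.mem_nhds ((K.e j).map_source hy.2))
  exact h2.comp y h1

theorem S1_lap (hC2 : C2_stmt) (i j : Fin K.n) (y : C2) (hy : y ∈ S1_V K i j) (f : X → ℝ) (hf : K.Smo f) (ξ : C2) :
    lap (fun z => K.pot j f (K.e j ((K.e i).symm z))) y ξ = lap (K.pot i f) y ξ := by
  have g1 : (fun z => K.pot j f (K.e j ((K.e i).symm z))) =ᶠ[𝓝 y]
      (fun z => 1 * K.ρ j (K.e j ((K.e i).symm z)) + 1 * K.lo i f z) := by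
    filter_upwards [(S1_V_open K i j).mem_nhds hy] with z hz
    simp only [KS.pot, KS.lo, one_mul]
    rw [(K.e j).left_inv hz.2]
  have g2 : K.pot i f =ᶠ[𝓝 y] (fun z => 1 * K.ρ i z + 1 * K.lo i f z) := by
    filter_upwards with z
    simp only [KS.pot, KS.lo, one_mul]
  have c1 : ContDiffAt ℝ 2 (fun z => K.ρ j (K.e j ((K.e i).symm z))) y :=
    (S1_comp_at K i j y hy _ (K.ρ_smooth j)).of_le S1_two_le
  have c2 : ContDiffAt ℝ 2 (K.lo i f) y :=
    ((hf i).contDiffAt ((K.e i).open_target.mem_nhds hy.1)).of_le S1_two_le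
  have c3 : ContDiffAt ℝ 2 (K.ρ i) y :=
    ((K.ρ_smooth i).contDiffAt ((K.e i).open_target.mem_nhds hy.1)).of_le S1_two_le
  rw [S1_lap_germ _ _ _ g1, S1_lap_germ _ _ _ g2,
    (hC2.2.2.2.2.1 (fun z => K.ρ j (K.e j ((K.e i).symm z))) (K.lo i f) 0 y 1 1 c1 c2).1 ξ,
    (hC2.2.2.2.2.1 (K.ρ i) (K.lo i f) 0 y 1 1 c3 c2).1 ξ, K.compat i j y hy.1 hy.2 ξ]

theorem S1_pt (hC2 : C2_stmt) (i j : Fin K.n) (y : C2) (hy : y ∈ S1_V K i j) (f g : X → ℝ) (hf : K.Smo f)
    (hg : K.Smo g) :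
    dens (fun z => K.pot j f (K.e j ((K.e i).symm z))) (fun z => K.pot j g (K.e j ((K.e i).symm z))) y =
      dens (K.pot i f) (K.pot i g) y := by
  have a1 : ∀ f : X → ℝ, K.Smo f → ContDiffAt ℝ 2 (fun z => K.pot j f (K.e j ((K.e i).symm z))) y := fun f hf =>
    (S1_comp_at K i j y hy _ (S1_pot_smooth K j f hf)).of_le S1_two_le
  have a2 : ∀ f : X → ℝ, K.Smo f → ContDiffAt ℝ 2 (K.pot i f) y := fun f hf =>
    ((S1_pot_smooth K i f hf).contDiffAt ((K.e i).open_target.mem_nhds hy.1)).of_le S1_two_le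
  rw [hC2.1 _ (K.pot i f) _ y (a1 f hf) (a2 f hf) (fun ξ => S1_lap K hC2 i j y hy f hf ξ),
    hC2.2.2.2.2.2.1, hC2.1 _ (K.pot i g) _ y (a1 g hg) (a2 g hg) (fun ξ => S1_lap K hC2 i j y hy g hg ξ),
    hC2.2.2.2.2.2.1]

theorem S1_cov [MeasurableSpace X] [BorelSpace X] (hC1 : C1_stmt) (hC2 : C2_stmt) (f g : X → ℝ) (hf : K.Smo f)
    (hg : K.Smo g) (i j : Fin K.n) (B : Set X) (hB : MeasurableSet B) (hBi : B ⊆ (K.e i).source)
    (hBj : B ⊆ (K.e j).source) :
    ∫⁻ y in (K.e j) '' B, ENNReal.ofReal (dens (K.pot j f) (K.pot j g) y) =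
      ∫⁻ y in (K.e i) '' B, ENNReal.ofReal (dens (K.pot i f) (K.pot i g) y) := by
  have := S1_haar
  set F : C2 → C2 := fun y => K.e j ((K.e i).symm y) with hF
  have hV : (K.e i) '' B ⊆ S1_V K i j := by
    rintro y ⟨x, hx, rfl⟩
    refine ⟨(K.e i).map_source (hBi hx), ?_⟩
    rw [(K.e i).left_inv (hBi hx)]
    exact hBj hx
  have him : (K.e j) '' B = F '' ((K.e i) '' B) := by
    rw [image_image]
    apply image_congr
    intro x hx
    simp only [hF]
    rw [(K.e i).left_inv (hBi hx)]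
  have hinj : InjOn F ((K.e i) '' B) := by
    rintro _ ⟨x, hx, rfl⟩ _ ⟨x', hx', rfl⟩ h
    simp only [hF] at h
    rw [(K.e i).left_inv (hBi hx), (K.e i).left_inv (hBi hx')] at h
    rw [(K.e j).injOn (hBj hx) (hBj hx') h]
  rw [him, lintegral_image_eq_lintegral_abs_det_fderiv_mul volume (S1_img (K.e i) B hB hBi)
    (f' := fun y => fderiv ℝ F y) ?_ hinj]
  · apply setLIntegral_congr_fun (S1_img (K.e i) B hB hBi)
    intro y hy
    simp only
    have hy' := hV hy
    have c := hC1 (K.e j).target (S1_V K i j) F (K.pot j f) (K.pot j g) (K.e j).open_target (S1_V_open K i j)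
      ((K.hol i j).of_le S1_two_le) (fun z hz => (K.e j).map_source hz.2)
      ((S1_pot_smooth K j f hf).of_le S1_two_le) ((S1_pot_smooth K j g hg).of_le S1_two_le) y hy'
    have c' := S1_pt K hC2 i j y hy' f g hf hg
    rw [← ENNReal.ofReal_mul (abs_nonneg _), ← c, ← c']
  · intro y hy
    have h1 := (S1_F_at K i j y (hV hy)).differentiableAt (by simp)
    exact ((h1.restrictScalars ℝ).hasFDerivAt).hasFDerivWithinAt

/-- the pieces -/
def S1_Q (i : Fin K.n) : Set X := {x | x ∈ (K.e i).source ∧ K.e i x ∈ bal (K.c i) (K.R i / 2)}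
def S1_P (i : Fin K.n) : Set X := S1_Q K i \ ⋃ j : Fin K.n, ⋃ _ : j < i, S1_Q K j

theorem S1_bal_open (c : C2) (r : ℝ) : IsOpen (bal c r) := by
  have h : Continuous (fun y : C2 => nsq (y - c)) := by
    unfold nsq
    fun_prop
  exact isOpen_lt h continuous_const

theorem S1_Q_open (i : Fin K.n) : IsOpen (S1_Q K i) :=
  (K.e i).isOpen_inter_preimage (S1_bal_open _ _)

theorem S1_P_sub (i : Fin K.n) : S1_P K i ⊆ S1_Q K i := sdiff_subset

theorem S1_P_cover (x : X) : ∃ i, x ∈ S1_P K i := by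
  classical
  obtain ⟨i, hi⟩ := K.cover x
  have hne : (Finset.univ.filter (fun i => x ∈ S1_Q K i)).Nonempty := ⟨i, by simp [S1_Q]; exact hi⟩
  refine ⟨(Finset.univ.filter (fun i => x ∈ S1_Q K i)).min' hne, ?_, ?_⟩
  · exact (Finset.mem_filter.1 (Finset.min'_mem _ hne)).2
  · intro hx
    simp only [mem_iUnion] at hx
    obtain ⟨j, hj, hxj⟩ := hx
    exact absurd (Finset.min'_le _ j (Finset.mem_filter.2 ⟨Finset.mem_univ _, hxj⟩)) (not_le.2 hj)

theorem S1_P_disj (i j : Fin K.n) (h : i ≠ j) : Disjoint (S1_P K i) (S1_P K j) := by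
  rw [Set.disjoint_left]
  intro x hi hj
  rcases lt_or_gt_of_ne h with h | h
  · exact hj.2 (mem_iUnion.2 ⟨i, mem_iUnion.2 ⟨h, hi.1⟩⟩)
  · exact hi.2 (mem_iUnion.2 ⟨j, mem_iUnion.2 ⟨h, hj.1⟩⟩)

theorem S1_P_meas [MeasurableSpace X] [BorelSpace X] (i : Fin K.n) : MeasurableSet (S1_P K i) := by
  apply (S1_Q_open K i).measurableSet.diff
  exact MeasurableSet.iUnion fun j => MeasurableSet.iUnion fun _ => (S1_Q_open K j).measurableSet

/-- the measure on a piece -/
noncomputable def S1_nu [MeasurableSpace X] (f g : X → ℝ) (i : Fin K.n) : Measure X :=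
  Measure.map (K.e i).symm ((volume.restrict ((K.e i) '' (S1_P K i))).withDensity
    (fun y => ENNReal.ofReal (dens (K.pot i f) (K.pot i g) y)))

theorem S1_nu_apply [MeasurableSpace X] [BorelSpace X] [SecondCountableTopology X] (f g : X → ℝ) (i : Fin K.n)
    (A : Set X) (hA : MeasurableSet A) :
    S1_nu K f g i A = ∫⁻ y in (K.e i) '' (A ∩ S1_P K i), ENNReal.ofReal (dens (K.pot i f) (K.pot i g) y) := by
  have hP : S1_P K i ⊆ (K.e i).source := fun x hx => (S1_P_sub K i hx).1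
  have hPm : MeasurableSet ((K.e i) '' (S1_P K i)) := S1_img _ _ (S1_P_meas K i) hP
  have hsub : (K.e i) '' (S1_P K i) ⊆ (K.e i).target := by
    rintro _ ⟨x, hx, rfl⟩; exact (K.e i).map_source (hP hx)
  have hae : AEMeasurable (K.e i).symm ((volume.restrict ((K.e i) '' (S1_P K i))).withDensity
      (fun y => ENNReal.ofReal (dens (K.pot i f) (K.pot i g) y))) :=
    (((K.e i).continuousOn_symm.mono hsub).aemeasurable hPm).mono_ac (withDensity_absolutelyContinuous _ _)
  unfold S1_nu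
  rw [Measure.map_apply_of_aemeasurable hae hA, withDensity_apply', Measure.restrict_restrict' hPm]
  congr 2
  ext y
  constructor
  · rintro ⟨h1, x, hx, rfl⟩
    have h1' : (K.e i).symm (K.e i x) ∈ A := h1
    rw [(K.e i).left_inv (hP hx)] at h1'
    exact ⟨x, ⟨h1', hx⟩, rfl⟩
  · rintro ⟨x, ⟨hxA, hxP⟩, rfl⟩
    refine ⟨?_, x, hxP, rfl⟩
    show (K.e i).symm (K.e i x) ∈ A
    rwa [(K.e i).left_inv (hP hxP)]

end

theorem S1_cbal_compact (c : C2) (s : ℝ) : IsCompact (cbal c s) := by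
  have hc : Continuous (fun y : C2 => nsq (y - c)) := by
    unfold nsq
    fun_prop
  apply Metric.isCompact_of_isClosed_isBounded
  · exact isClosed_le hc continuous_const
  · apply (Metric.isBounded_closedBall (x := c) (r := s ^ 2 + 1)).subset
    intro y hy
    rw [Metric.mem_closedBall, dist_eq_norm, Prod.norm_def]
    have hy' : ‖(y - c).1‖ ^ 2 + ‖(y - c).2‖ ^ 2 ≤ s ^ 2 := hy
    apply max_le
    · nlinarith [sq_nonneg (‖(y - c).1‖ - 1), sq_nonneg ‖(y - c).2‖, sq_nonneg ‖(y - c).1‖]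
    · nlinarith [sq_nonneg (‖(y - c).2‖ - 1), sq_nonneg ‖(y - c).2‖, sq_nonneg ‖(y - c).1‖]

theorem S1 (hC1 : C1_stmt) (hC2 : C2_stmt) : S1_stmt := by
  intro X _ _ _ _ _ _ K f hf g hg
  refine ⟨∑ i : Fin K.n, S1_nu K f g i, ?_, ?_⟩
  · have : ∀ i, S1_nu K f g i univ < ⊤ := by
      intro i
      rw [S1_nu_apply K f g i univ MeasurableSet.univ, univ_inter]
      have hsub : (K.e i) '' (S1_P K i) ⊆ cbal (K.c i) (K.R i) := by
        rintro _ ⟨x, hx, rfl⟩
        have h1 : nsq (K.e i x - K.c i) < (K.R i / 2) ^ 2 := (S1_P_sub K i hx).2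
        have h2 := K.R_pos i
        show nsq (K.e i x - K.c i) ≤ (K.R i) ^ 2
        nlinarith
      have hcont := (S1_dens_cont (K.pot i f) (K.pot i g) (K.e i).target (K.e i).open_target
        (S1_pot_smooth K i f hf.1) (S1_pot_smooth K i g hg.1)).mono (K.ball_sub i)
      obtain ⟨C, hC⟩ := ((S1_cbal_compact (K.c i) (K.R i)).bddAbove_image hcont)
      calc ∫⁻ y in (K.e i) '' (S1_P K i), ENNReal.ofReal (dens (K.pot i f) (K.pot i g) y)
          ≤ ∫⁻ y in cbal (K.c i) (K.R i), ENNReal.ofReal (dens (K.pot i f) (K.pot i g) y) :=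
            lintegral_mono_set hsub
        _ ≤ ∫⁻ y in cbal (K.c i) (K.R i), ENNReal.ofReal C := by
            apply setLIntegral_mono measurable_const
            intro y hy
            exact ENNReal.ofReal_le_ofReal (hC ⟨y, hy, rfl⟩)
        _ < ⊤ := by
            rw [setLIntegral_const]
            exact ENNReal.mul_lt_top ENNReal.ofReal_lt_top (S1_cbal_compact _ _).measure_lt_top
    constructor
    rw [Measure.finsetSum_apply]
    exact ENNReal.sum_lt_top.2 (fun i _ => this i)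
  · intro j A hA hAj
    rw [Measure.finsetSum_apply]
    have h1 : ∀ i : Fin K.n, S1_nu K f g i A =
        ∫⁻ y in (K.e j) '' (A ∩ S1_P K i), ENNReal.ofReal (dens (K.pot j f) (K.pot j g) y) := by
      intro i
      rw [S1_nu_apply K f g i A hA]
      exact (S1_cov K hC1 hC2 f g hf.1 hg.1 i j (A ∩ S1_P K i) (hA.inter (S1_P_meas K i))
        (fun x hx => (S1_P_sub K i hx.2).1) (fun x hx => hAj hx.1)).symm
    simp_rw [h1]
    have h2 : (K.e j) '' A = ⋃ i : Fin K.n, (K.e j) '' (A ∩ S1_P K i) := by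
      rw [← image_iUnion, ← inter_iUnion]
      congr 1
      ext x
      constructor
      · intro hx
        obtain ⟨i, hi⟩ := S1_P_cover K x
        exact ⟨hx, mem_iUnion.2 ⟨i, hi⟩⟩
      · intro hx; exact hx.1
    rw [h2, lintegral_iUnion (fun i => S1_img _ _ (hA.inter (S1_P_meas K i)) (fun x hx => hAj hx.1)),
      tsum_fintype]
    intro i i' hii
    rw [Function.onFun, Set.disjoint_left]
    rintro _ ⟨x, hx, rfl⟩ ⟨x', hx', h⟩
    have h3 := (K.e j).injOn (hAj hx'.1) (hAj hx.1) h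
    rw [h3] at hx'
    exact Set.disjoint_left.1 (S1_P_disj K i i' hii) hx.2 hx'.2

end MAP
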