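import Mathlib
import Pool.Agent.helper50.MA.Spec2
import Pool.Agent.helper45.MA.S1

set_option autoImplicit false

open MeasureTheory Set Filter Topology
open scoped ContDiff Real

namespace MAP

section
variable {X : Type} [TopologicalSpace X] (K : KS X)

theorem S2_dens_nonneg (hC2 : C2_stmt) (f g : X → ℝ) (hf : f ∈ K.PS) (hg : g ∈ K.PS) (i : Fin K.n) (y : C2)
    (hy : y ∈ (K.e i).target) : 0 ≤ dens (K.pot i f) (K.pot i g) y := by
  have a2 : ∀ f : X → ℝ, K.Smo f → ContDiffAt ℝ 2 (K.pot i f) y := fun f hf =>
    ((S1_pot_smooth K i f hf).contDiffAt ((K.e i).open_target.mem_nhds hy)).of_le S1_two_le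
  exact hC2.2.1 _ _ y (a2 f hf.1) (a2 g hg.1) (hf.2 i y hy) (hg.2 i y hy)

/-- the density measure in a chart -/
noncomputable def S2_mu (f g : X → ℝ) (i : Fin K.n) : Measure C2 :=
  (volume.restrict (K.e i).target).withDensity (fun y => ENNReal.ofReal (dens (K.pot i f) (K.pot i g) y))

theorem S2_ae [MeasurableSpace X] [BorelSpace X] [SecondCountableTopology X] (f g : X → ℝ) (i : Fin K.n) :
    AEMeasurable (K.e i).symm (S2_mu K f g i) :=
  ((K.e i).continuousOn_symm.aemeasurable (K.e i).open_target.measurableSet).mono_ac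
    (withDensity_absolutelyContinuous _ _)

theorem S2_restr [MeasurableSpace X] [BorelSpace X] [SecondCountableTopology X] (f g : X → ℝ) (ν : Measure X)
    (hν : K.IsM f g ν) (i : Fin K.n) : ν.restrict (K.e i).source = Measure.map (K.e i).symm (S2_mu K f g i) := by
  ext A hA
  rw [Measure.restrict_apply hA, Measure.map_apply_of_aemeasurable (S2_ae K f g i) hA, S2_mu,
    withDensity_apply', Measure.restrict_restrict' (K.e i).open_target.measurableSet,
    hν.2 i (A ∩ (K.e i).source) (hA.inter (K.e i).open_source.measurableSet) inter_subset_right]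
  congr 2
  ext y
  constructor
  · rintro ⟨x, ⟨hxA, hxs⟩, rfl⟩
    refine ⟨?_, (K.e i).map_source hxs⟩
    show (K.e i).symm (K.e i x) ∈ A
    rwa [(K.e i).left_inv hxs]
  · rintro ⟨h1, h2⟩
    exact ⟨(K.e i).symm y, ⟨h1, (K.e i).map_target h2⟩, (K.e i).right_inv h2⟩

end

theorem S2 (hC2 : C2_stmt) : S2_stmt := by
  intro X _ _ _ _ _ _ K f hf g hg ν hν
  constructor
  · intro ν' hν'
    ext A hA
    have h2 : A = ⋃ i : Fin K.n, (A ∩ S1_P K i) := by
      rw [← inter_iUnion]
      ext x
      constructor
      · intro hx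
        obtain ⟨i, hi⟩ := S1_P_cover K x
        exact ⟨hx, mem_iUnion.2 ⟨i, hi⟩⟩
      · intro hx; exact hx.1
    have hd : Pairwise (Function.onFun Disjoint fun i : Fin K.n => A ∩ S1_P K i) := by
      intro i j hij
      exact (S1_P_disj K i j hij).mono inter_subset_right inter_subset_right
    have hm : ∀ i : Fin K.n, MeasurableSet (A ∩ S1_P K i) := fun i => hA.inter (S1_P_meas K i)
    rw [h2, measure_iUnion hd hm, measure_iUnion hd hm]
    congr 1
    ext i
    rw [hν.2 i _ (hm i) (fun x hx => (S1_P_sub K i hx.2).1), hν'.2 i _ (hm i) (fun x hx => (S1_P_sub K i hx.2).1)]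
  · intro i h hh hB hz
    obtain ⟨B, hB⟩ := hB
    have fin := hν.1
    have hT := (K.e i).open_target.measurableSet
    have hint : Integrable h ν := by
      apply Integrable.of_bound hh.aestronglyMeasurable B
      exact Eventually.of_forall (fun x => by rw [Real.norm_eq_abs]; exact hB x)
    have hres := S2_restr K f g ν hν i
    have hint2 : Integrable h (Measure.map (K.e i).symm (S2_mu K f g i)) := by
      rw [← hres]; exact hint.restrict
    have hsm : AEStronglyMeasurable h (Measure.map (K.e i).symm (S2_mu K f g i)) := hh.aestronglyMeasurable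
    have hint3 : Integrable (h ∘ (K.e i).symm) (S2_mu K f g i) :=
      (integrable_map_measure hsm (S2_ae K f g i)).1 hint2
    have hdm : AEMeasurable (fun y => ENNReal.ofReal (dens (K.pot i f) (K.pot i g) y))
        (volume.restrict (K.e i).target) :=
      ENNReal.measurable_ofReal.comp_aemeasurable
        ((S1_dens_cont (K.pot i f) (K.pot i g) (K.e i).target (K.e i).open_target
        (S1_pot_smooth K i f hf.1) (S1_pot_smooth K i g hg.1)).aemeasurable hT)
    have hlt : ∀ᵐ y ∂(volume.restrict (K.e i).target),
        ENNReal.ofReal (dens (K.pot i f) (K.pot i g) y) < ⊤ :=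
      Eventually.of_forall (fun y => ENNReal.ofReal_lt_top)
    have hcongr : (fun y => (ENNReal.ofReal (dens (K.pot i f) (K.pot i g) y)).toReal • (h ∘ (K.e i).symm) y)
        =ᵐ[volume.restrict (K.e i).target]
        (fun y => h ((K.e i).symm y) * dens (K.pot i f) (K.pot i g) y) := by
      rw [Filter.EventuallyEq, ae_restrict_iff' hT]
      apply Eventually.of_forall
      intro y hy
      rw [ENNReal.toReal_ofReal (S2_dens_nonneg K hC2 f g hf hg i y hy), smul_eq_mul, mul_comm]
      rfl
    constructor
    · have h4 := (integrable_withDensity_iff_integrable_smul₀' hdm hlt).1 hint3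
      exact h4.congr hcongr
    · rw [← setIntegral_eq_integral_of_forall_compl_eq_zero (s := (K.e i).source) (fun x hx => hz x hx), hres,
        integral_map (S2_ae K f g i) hsm]
      have h5 := integral_withDensity_eq_integral_toReal_smul₀ hdm hlt (h ∘ (K.e i).symm)
      rw [integral_congr_ae hcongr] at h5
      exact h5

end MAP
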