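import Mathlib
import Pool.Agent.helper50.MA.Spec2
import Pool.Agent.helper45.MA.S2

set_option autoImplicit false

open MeasureTheory Set Filter Topology
open scoped ContDiff Real

namespace MAP

section
variable {X : Type} [TopologicalSpace X] (K : KS X)

theorem S9_isM [CompactSpace X] [T2Space X] [SecondCountableTopology X]
    [MeasurableSpace X] [BorelSpace X] (hS1 : S1_stmt) (f g : X → ℝ) (hf : f ∈ K.PS) (hg : g ∈ K.PS) :
    K.IsM f g (K.Ms f g) := by
  have h := hS1 X K f hf g hg
  unfold KS.Ms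
  rw [dif_pos h]
  exact Classical.choose_spec h

theorem S9_at (f : X → ℝ) (hf : K.Smo f) (i : Fin K.n) (y : C2) (hy : y ∈ (K.e i).target) :
    ContDiffAt ℝ 2 (K.pot i f) y :=
  ((S1_pot_smooth K i f hf).contDiffAt ((K.e i).open_target.mem_nhds hy)).of_le S1_two_le

theorem S9_lo_at (f : X → ℝ) (hf : K.Smo f) (i : Fin K.n) (y : C2) (hy : y ∈ (K.e i).target) :
    ContDiffAt ℝ 2 (K.lo i f) y :=
  ((hf i).contDiffAt ((K.e i).open_target.mem_nhds hy)).of_le S1_two_le

theorem S9_zero : (fun _ : X => (0 : ℝ)) ∈ K.PS := by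
  refine ⟨fun i => contDiffOn_const, fun i y hy ξ => ?_⟩
  have e : K.pot i (fun _ => 0) = K.ρ i := by
    funext z
    simp [KS.pot]
  rw [e]
  by_cases hξ : ξ = 0
  · rw [hξ]; simp [lap, D2]
  · exact (K.ρ_pos i y hy ξ hξ).le

theorem S9_smo_conv (f g : X → ℝ) (hf : K.Smo f) (hg : K.Smo g) (a b : ℝ) : K.Smo (fun x => a * f x + b * g x) :=
  fun i => (contDiffOn_const.mul (hf i)).add (contDiffOn_const.mul (hg i))

theorem S9_pot_conv (f g : X → ℝ) (t : ℝ) (i : Fin K.n) :
    K.pot i (fun x => (1 - t) * f x + t * g x) = fun y => (1 - t) * K.pot i f y + t * K.pot i g y := by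
  funext y
  simp only [KS.pot]
  ring

theorem S9_lap_const (u : C2 → ℝ) (c : ℝ) (x ξ : C2) : lap (fun y => u y + c) x ξ = lap u x ξ := by
  have h : fderiv ℝ (fun y => u y + c) = fderiv ℝ u := by
    funext y
    exact fderiv_add_const c
  simp only [lap, D2, h]

theorem S9_pot_const (f : X → ℝ) (c : ℝ) (i : Fin K.n) :
    K.pot i (fun x => f x + c) = fun y => K.pot i f y + c := by
  funext y
  simp only [KS.pot]
  ring

theorem S9_add_const (f : X → ℝ) (hf : f ∈ K.PS) (c : ℝ) : (fun x => f x + c) ∈ K.PS := by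
  refine ⟨fun i => (hf.1 i).add contDiffOn_const, fun i y hy ξ => ?_⟩
  rw [S9_pot_const, S9_lap_const]
  exact hf.2 i y hy ξ

theorem S9_conv (hC2 : C2_stmt) (f g : X → ℝ) (hf : f ∈ K.PS) (hg : g ∈ K.PS) (t : ℝ) (h0 : 0 ≤ t) (h1 : t ≤ 1) :
    (fun x => (1 - t) * f x + t * g x) ∈ K.PS := by
  refine ⟨S9_smo_conv K f g hf.1 hg.1 _ _, fun i y hy ξ => ?_⟩
  rw [S9_pot_conv, (hC2.2.2.2.2.1 (K.pot i f) (K.pot i g) 0 y (1 - t) t (S9_at K f hf.1 i y hy)
    (S9_at K g hg.1 i y hy)).1 ξ]
  have := hf.2 i y hy ξ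
  have := hg.2 i y hy ξ
  have : 0 ≤ 1 - t := by linarith
  positivity

end

theorem S9 (hC2 : C2_stmt) (hS1 : S1_stmt) (hS2 : S2_stmt) : S9_stmt := by
  intro X _ _ _ _ _ _ K
  have hzero := S9_zero K
  have hadd := S9_add_const K
  have hconv := S9_conv K hC2
  have isM := fun f g hf hg => S9_isM K hS1 f g hf hg
  have uniq : ∀ f g, f ∈ K.PS → g ∈ K.PS → ∀ ν, K.IsM f g ν → ν = K.Ms f g := by
    intro f g hf hg ν hν
    exact (hS2 X K f hf g hg (K.Ms f g) (isM f g hf hg)).1 ν hν
  refine ⟨?_, ?_, ?_, ?_, ?_, ?_, ?_, ?_⟩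
  · intro c
    have := hadd _ hzero c
    simpa using this
  · exact hadd
  · intro f hf g hg t h0 h1
    exact hconv f g hf hg t h0 h1
  · intro f hf g hg
    refine ⟨(isM f g hf hg).1, ?_⟩
    apply uniq g f hg hf
    refine ⟨(isM f g hf hg).1, fun i A hA hAi => ?_⟩
    rw [(isM f g hf hg).2 i A hA hAi]
    congr 1
    funext y
    rw [hC2.2.2.2.2.2.1]
  · intro f hf f' hf' g hg t h0 h1 A hA
    have i1 := isM f g hf hg
    have i2 := isM f' g hf' hg
    have fin1 := i1.1
    have fin2 := i2.1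
    have hc := hconv f f' hf hf' t h0 h1
    have key : ENNReal.ofReal (1 - t) • K.Ms f g + ENNReal.ofReal t • K.Ms f' g =
        K.Ms (fun x => (1 - t) * f x + t * f' x) g := by
      apply uniq _ _ hc hg
      have r1 : IsFiniteMeasure (ENNReal.ofReal (1 - t) • K.Ms f g) :=
        Measure.smul_finite _ ENNReal.ofReal_ne_top
      have r2 : IsFiniteMeasure (ENNReal.ofReal t • K.Ms f' g) :=
        Measure.smul_finite _ ENNReal.ofReal_ne_top
      refine ⟨inferInstance, fun i B hB hBi => ?_⟩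
      rw [Measure.add_apply, Measure.smul_apply, Measure.smul_apply, smul_eq_mul, smul_eq_mul,
        i1.2 i B hB hBi, i2.2 i B hB hBi]
      have hBm : MeasurableSet ((K.e i) '' B) := S1_img _ _ hB hBi
      have hBt : (K.e i) '' B ⊆ (K.e i).target := by
        rintro _ ⟨x, hx, rfl⟩; exact (K.e i).map_source (hBi hx)
      rw [← lintegral_const_mul' _ _ ENNReal.ofReal_ne_top, ← lintegral_const_mul' _ _ ENNReal.ofReal_ne_top,
        ← lintegral_add_left']
      · apply setLIntegral_congr_fun hBm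
        intro y hy
        simp only
        have hy' := hBt hy
        rw [S9_pot_conv, (hC2.2.2.2.2.1 (K.pot i f) (K.pot i f') (K.pot i g) y (1 - t) t (S9_at K f hf.1 i y hy')
          (S9_at K f' hf'.1 i y hy')).2,
          ENNReal.ofReal_add (mul_nonneg (by linarith) (S2_dens_nonneg K hC2 f g hf hg i y hy'))
            (mul_nonneg h0 (S2_dens_nonneg K hC2 f' g hf' hg i y hy')),
          ENNReal.ofReal_mul (by linarith), ENNReal.ofReal_mul h0]
      · have hdm : AEMeasurable (fun y => ENNReal.ofReal (dens (K.pot i f) (K.pot i g) y))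
            (volume.restrict ((K.e i) '' B)) :=
          ENNReal.measurable_ofReal.comp_aemeasurable
            (((S1_dens_cont (K.pot i f) (K.pot i g) (K.e i).target (K.e i).open_target
            (S1_pot_smooth K i f hf.1) (S1_pot_smooth K i g hg.1)).mono hBt).aemeasurable hBm)
        exact hdm.const_mul _
    rw [← key]
    unfold Measure.real
    rw [Measure.add_apply, Measure.smul_apply, Measure.smul_apply, smul_eq_mul, smul_eq_mul,
      ENNReal.toReal_add (ENNReal.mul_ne_top ENNReal.ofReal_ne_top (measure_ne_top _ _))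
        (ENNReal.mul_ne_top ENNReal.ofReal_ne_top (measure_ne_top _ _)),
      ENNReal.toReal_mul, ENNReal.toReal_mul, ENNReal.toReal_ofReal (by linarith), ENNReal.toReal_ofReal h0]
  · intro f hf g hg c
    symm
    apply uniq _ _ (hadd f hf c) hg
    refine ⟨(isM f g hf hg).1, fun i A hA hAi => ?_⟩
    rw [(isM f g hf hg).2 i A hA hAi]
    have hAm : MeasurableSet ((K.e i) '' A) := S1_img _ _ hA hAi
    have hAt : (K.e i) '' A ⊆ (K.e i).target := by
      rintro _ ⟨x, hx, rfl⟩; exact (K.e i).map_source (hAi hx)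
    apply setLIntegral_congr_fun hAm
    intro y hy
    simp only
    rw [hC2.1 (K.pot i (fun x => f x + c)) (K.pot i f) _ y (S9_at K _ (hadd f hf c).1 i y (hAt hy))
      (S9_at K f hf.1 i y (hAt hy)) (fun ξ => by rw [S9_pot_const, S9_lap_const])]
  · intro f hf f' hf' g hg U hU hff A hA hAU
    have h2 : A = ⋃ i : Fin K.n, (A ∩ S1_P K i) := by
      rw [← inter_iUnion]
      ext x
      constructor
      · intro hx
        obtain ⟨i, hi⟩ := S1_P_cover K x
        exact ⟨hx, mem_iUnion.2 ⟨i, hi⟩⟩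
      · intro hx; exact hx.1
    have hd : Pairwise (Function.onFun Disjoint fun i : Fin K.n => A ∩ S1_P K i) := by
      intro i j hij
      exact (S1_P_disj K i j hij).mono inter_subset_right inter_subset_right
    have hm : ∀ i : Fin K.n, MeasurableSet (A ∩ S1_P K i) := fun i => hA.inter (S1_P_meas K i)
    rw [h2, measure_iUnion hd hm, measure_iUnion hd hm]
    congr 1
    ext i
    have hs : A ∩ S1_P K i ⊆ (K.e i).source := fun x hx => (S1_P_sub K i hx.2).1
    rw [(isM f g hf hg).2 i _ (hm i) hs, (isM f' g hf' hg).2 i _ (hm i) hs]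
    apply setLIntegral_congr_fun (S1_img _ _ (hm i) hs)
    rintro y ⟨x, hx, rfl⟩
    simp only
    have hy := (K.e i).map_source (hs hx)
    rw [hC2.1 (K.pot i f) (K.pot i f') _ _ (S9_at K f hf.1 i _ hy) (S9_at K f' hf'.1 i _ hy)]
    intro ξ
    apply S1_lap_germ
    have hV : IsOpen ((K.e i).target ∩ (K.e i).symm ⁻¹' U) := (K.e i).symm.isOpen_inter_preimage hU
    have hxV : K.e i x ∈ (K.e i).target ∩ (K.e i).symm ⁻¹' U := by
      refine ⟨hy, ?_⟩
      show (K.e i).symm (K.e i x) ∈ U
      rw [(K.e i).left_inv (hs hx)]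
      exact hAU hx.1
    filter_upwards [hV.mem_nhds hxV] with z hz
    simp only [KS.pot]
    rw [hff _ hz.2]
  · intro x
    obtain ⟨i, hi⟩ := K.cover x
    have i1 := isM _ _ hzero hzero
    have fin1 := i1.1
    have hQs : S1_Q K i ⊆ (K.e i).source := fun x hx => hx.1
    have hpos : 0 < K.Ms (fun _ => 0) (fun _ => 0) (S1_Q K i) := by
      rw [i1.2 i _ (S1_Q_open K i).measurableSet hQs]
      have hopen : IsOpen ((K.e i) '' (S1_Q K i)) := by
        exact (K.e i).isOpen_image_of_subset_source (S1_Q_open K i) hQs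
      have hne : ((K.e i) '' (S1_Q K i)).Nonempty := ⟨_, x, hi, rfl⟩
      have hsub : (K.e i) '' (S1_Q K i) ⊆ (K.e i).target := by
        rintro _ ⟨x, hx, rfl⟩; exact (K.e i).map_source (hQs hx)
      have hdm : AEMeasurable (fun y => ENNReal.ofReal (dens (K.pot i (fun _ => 0)) (K.pot i (fun _ => 0)) y))
          (volume.restrict ((K.e i) '' (S1_Q K i))) :=
        ENNReal.measurable_ofReal.comp_aemeasurable
          (((S1_dens_cont (K.pot i (fun _ => 0)) (K.pot i (fun _ => 0)) (K.e i).target (K.e i).open_target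
          (S1_pot_smooth K i _ hzero.1) (S1_pot_smooth K i _ hzero.1)).mono hsub).aemeasurable hopen.measurableSet)
      rw [pos_iff_ne_zero, Ne, lintegral_eq_zero_iff' hdm, Filter.EventuallyEq, ae_restrict_iff' hopen.measurableSet]
      intro hae
      have hnull : volume ((K.e i) '' (S1_Q K i)) = 0 := by
        refine measure_mono_null ?_ hae
        intro y hy
        rw [mem_compl_iff, mem_setOf_eq]
        intro hcon
        have h0 := hcon hy
        simp only [Pi.zero_apply, ENNReal.ofReal_eq_zero] at h0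
        have e : K.pot i (fun _ => 0) = K.ρ i := by
          funext z
          simp [KS.pot]
        rw [e] at h0
        have hρ : ContDiffAt ℝ 2 (K.ρ i) y :=
          ((K.ρ_smooth i).contDiffAt ((K.e i).open_target.mem_nhds (hsub hy))).of_le S1_two_le
        have := hC2.2.2.1 (K.ρ i) (K.ρ i) y hρ hρ (K.ρ_pos i y (hsub hy)) (K.ρ_pos i y (hsub hy))
        linarith
      have haar := S1_haar
      exact (hopen.measure_pos volume hne).ne' hnull
    have h1 : K.Ms (fun _ => 0) (fun _ => 0) (S1_Q K i) ≤ K.Ms (fun _ => 0) (fun _ => 0) univ :=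
      measure_mono (subset_univ _)
    exact ENNReal.toReal_pos (lt_of_lt_of_le hpos h1).ne' (measure_ne_top _ _)

end MAP
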