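import Mathlib
import Pool.Agent.helper50.MA.Spec2
import Pool.Agent.helper45.MA.S9

set_option autoImplicit false

open MeasureTheory Set Filter Topology
open scoped ContDiff Real

namespace MAP

theorem S11_pot {X : Type} [TopologicalSpace X] (K : KS X) (χ : X → ℝ) (C : ℝ) (i : Fin K.n) :
    K.pot i (fun x => χ x / C) = fun y => 1 * K.ρ i y + (1 / C) * K.lo i χ y := by
  funext y
  simp only [KS.pot, KS.lo]
  ring

theorem S11 (hC2 : C2_stmt) (hS1 : S1_stmt) : S11_stmt := by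
  intro X _ _ _ _ _ _ K χ C i U hχ hC hχC hU hUt hlap g hg A hA hAU
  have hzero := S9_zero K
  have i1 := S9_isM K hS1 _ _ hzero hg
  have i2 := S9_isM K hS1 _ _ hχC hg
  have fin1 := i1.1
  have fin2 := i2.1
  have hAs : A ⊆ (K.e i).source := fun x hx => (hAU hx).1
  have hAm : MeasurableSet ((K.e i) '' A) := S1_img _ _ hA hAs
  have key : ENNReal.ofReal (C + 1) * K.Ms (fun _ => 0) g A ≤
      ENNReal.ofReal C * K.Ms (fun x => χ x / C) g A := by
    rw [i1.2 i A hA hAs, i2.2 i A hA hAs, ← lintegral_const_mul' _ _ ENNReal.ofReal_ne_top,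
      ← lintegral_const_mul' _ _ ENNReal.ofReal_ne_top]
    apply setLIntegral_mono' hAm
    rintro y ⟨x, hx, rfl⟩
    have hyU := (hAU hx).2
    have hy := hUt hyU
    rw [← ENNReal.ofReal_mul (by linarith), ← ENNReal.ofReal_mul hC.le]
    apply ENNReal.ofReal_le_ofReal
    have hρ : ContDiffAt ℝ 2 (K.ρ i) (K.e i x) :=
      ((K.ρ_smooth i).contDiffAt ((K.e i).open_target.mem_nhds hy)).of_le S1_two_le
    have hlo := S9_lo_at K χ hχ i _ hy
    have hgat := S9_at K g hg.1 i _ hy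
    have e : K.pot i (fun _ => 0) = K.ρ i := by
      funext z
      simp [KS.pot]
    have h1 := hC2.2.2.2.1 (K.ρ i) (K.lo i χ) (K.pot i g) _ hρ hlo hgat (hlap _ hyU) (hg.2 i _ hy)
    rw [e, S11_pot, (hC2.2.2.2.2.1 (K.ρ i) (K.lo i χ) (K.pot i g) _ 1 (1 / C) hρ hlo).2]
    have e2 : C * (1 * dens (K.ρ i) (K.pot i g) (K.e i x) + 1 / C * dens (K.lo i χ) (K.pot i g) (K.e i x)) =
        C * dens (K.ρ i) (K.pot i g) (K.e i x) + dens (K.lo i χ) (K.pot i g) (K.e i x) := by
      field_simp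
    rw [e2]
    linarith
  have h2 := ENNReal.toReal_mono (ENNReal.mul_ne_top ENNReal.ofReal_ne_top (measure_ne_top _ _)) key
  rw [ENNReal.toReal_mul, ENNReal.toReal_mul, ENNReal.toReal_ofReal (by linarith), ENNReal.toReal_ofReal hC.le] at h2
  exact h2

end MAP
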