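import Mathlib
import Pool.Agent.helper50.MA.Spec2

set_option autoImplicit false

open MeasureTheory Set Filter Topology
open scoped ContDiff Real

namespace MAP

/-- the algebra of smooth functions -/
noncomputable def S6_alg {X : Type} [TopologicalSpace X] [CompactSpace X] [T2Space X] (h3 : S3_stmt) (K : KS X) :
    Subalgebra ℝ C(X, ℝ) where
  carrier := {f | K.Smo f}
  mul_mem' := by
    intro a b ha hb
    exact ((h3 X K).2.1 a b ha hb).2
  add_mem' := by
    intro a b ha hb
    exact ((h3 X K).2.1 a b ha hb).1
  algebraMap_mem' := by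
    intro r
    exact (h3 X K).2.2.1 r

theorem S6 (h3 : S3_stmt) : S6_stmt := by
  intro X _ _ _ K h hh ε hε
  have hsep : (S6_alg h3 K).SeparatesPoints := by
    intro x y hxy
    obtain ⟨i, hi, _⟩ := K.cover x
    have main : ∀ W : Set C2, IsOpen W → W ⊆ (K.e i).target → K.e i x ∈ W →
        (y ∈ (K.e i).source → K.e i y ∉ W) →
        ∃ f ∈ ((fun f : C(X, ℝ) => (f : X → ℝ)) '' (S6_alg h3 K : Set C(X, ℝ))), f x ≠ f y := by
      intro W hW hWt hxW hyW
      obtain ⟨b, hb1, hb2, hb3, _, hb5⟩ := exists_contDiff_tsupport_subset (n := ⊤) (hW.mem_nhds hxW)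
      have hs : K.Smo (Set.indicator (K.e i).source (fun x => b (K.e i x))) :=
        (h3 X K).1 i b hb3 hb2 (hb1.trans hWt)
      have hc := (h3 X K).2.2.2.1 _ hs
      refine ⟨_, ⟨⟨_, hc⟩, hs, rfl⟩, ?_⟩
      show Set.indicator (K.e i).source (fun x => b (K.e i x)) x ≠
        Set.indicator (K.e i).source (fun x => b (K.e i x)) y
      rw [Set.indicator_of_mem hi, hb5]
      by_cases hy : y ∈ (K.e i).source
      · rw [Set.indicator_of_mem hy]
        have : b (K.e i y) = 0 := by
          by_contra hne
          exact hyW hy (hb1 (subset_tsupport b hne))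
        rw [this]; norm_num
      · rw [Set.indicator_of_notMem hy]; norm_num
    by_cases hy : y ∈ (K.e i).source
    · apply main ((K.e i).target ∩ {K.e i y}ᶜ) ((K.e i).open_target.inter isOpen_compl_singleton)
        inter_subset_left
      · refine ⟨(K.e i).map_source hi, ?_⟩
        intro he
        exact hxy ((K.e i).injOn hi hy he)
      · intro _ hc
        exact hc.2 rfl
    · apply main (K.e i).target (K.e i).open_target subset_rfl ((K.e i).map_source hi)
      intro hc; exact absurd hc hy
  obtain ⟨g, hg⟩ := ContinuousMap.exists_mem_subalgebra_near_continuous_of_separatesPoints (S6_alg h3 K) hsep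
    h hh ε hε
  refine ⟨(g : C(X, ℝ)), g.2, fun x => ?_⟩
  have := hg x
  rw [Real.norm_eq_abs, abs_sub_comm] at this
  exact this.le

end MAP
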