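import Mathlib
import Pool.Agent.helper50.MA.Spec2
import Pool.Agent.helper45.MA.S9
import Pool.Agent.helper45.MA.S11

set_option autoImplicit false

open MeasureTheory Set Filter Topology
open scoped ContDiff Real

namespace MAP

theorem S8_sum {X : Type} [TopologicalSpace X] [CompactSpace X] [T2Space X] [SecondCountableTopology X]
    [MeasurableSpace X] [BorelSpace X] (hS1 : S1_stmt) (hS2 : S2_stmt) (K : KS X) (a g : X → ℝ)
    (ha : a ∈ K.PS) (hg : g ∈ K.PS) (h : X → ℝ) (hh : Measurable h) (hB : ∃ B : ℝ, ∀ x, |h x| ≤ B) :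
    (∀ i : Fin K.n, IntegrableOn (fun y => (S1_P K i).indicator h ((K.e i).symm y) *
      dens (K.pot i a) (K.pot i g) y) (K.e i).target) ∧
    ∫ x, h x ∂K.Ms a g = ∑ i : Fin K.n, ∫ y in (K.e i).target, (S1_P K i).indicator h ((K.e i).symm y) *
      dens (K.pot i a) (K.pot i g) y := by
  obtain ⟨B, hB⟩ := hB
  have i1 := S9_isM K hS1 _ _ ha hg
  have fin1 := i1.1
  have hm : ∀ i : Fin K.n, Measurable ((S1_P K i).indicator h) := fun i => hh.indicator (S1_P_meas K i)
  have hb : ∀ i : Fin K.n, ∃ B : ℝ, ∀ x, |(S1_P K i).indicator h x| ≤ B := by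
    intro i
    refine ⟨B, fun x => ?_⟩
    by_cases hx : x ∈ S1_P K i
    · rw [Set.indicator_of_mem hx]; exact hB x
    · rw [Set.indicator_of_notMem hx, abs_zero]; exact (abs_nonneg _).trans (hB x)
  have hz : ∀ i : Fin K.n, ∀ x, x ∉ (K.e i).source → (S1_P K i).indicator h x = 0 := by
    intro i x hx
    apply Set.indicator_of_notMem
    intro hx'
    exact hx (S1_P_sub K i hx').1
  have q := fun i => (hS2 X K a ha g hg _ i1).2 i _ (hm i) (hb i) (hz i)
  refine ⟨fun i => (q i).1, ?_⟩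
  have hsum : ∀ x, h x = ∑ i : Fin K.n, (S1_P K i).indicator h x := by
    intro x
    obtain ⟨i, hi⟩ := S1_P_cover K x
    rw [Finset.sum_eq_single i]
    · rw [Set.indicator_of_mem hi]
    · intro j _ hj
      apply Set.indicator_of_notMem
      intro hx'
      exact Set.disjoint_left.1 (S1_P_disj K j i hj) hx' hi
    · intro hc; exact absurd (Finset.mem_univ i) hc
  have e1 : ∫ x, h x ∂K.Ms a g = ∫ x, ∑ i : Fin K.n, (S1_P K i).indicator h x ∂K.Ms a g := by
    congr 1
    funext x
    exact hsum x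
  rw [e1, integral_finsetSum]
  · apply Finset.sum_congr rfl
    intro i _
    exact (q i).2
  · intro i _
    obtain ⟨B', hB'⟩ := hb i
    apply Integrable.of_bound (hm i).aestronglyMeasurable B'
    exact Eventually.of_forall (fun x => by rw [Real.norm_eq_abs]; exact hB' x)

theorem S8 (hC2 : C2_stmt) (hS1 : S1_stmt) (hS2 : S2_stmt) (hS3 : S3_stmt) (hS5 : S5_stmt) (hS7 : S7_stmt)
    (hS9 : S9_stmt) : S8_stmt := by
  intro X _ _ _ _ _ _ K f hf g hg
  have hzero := S9_zero K
  have hfc : Continuous f := (hS3 X K).2.2.2.1 f hf.1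
  have hf2 : K.Smo (fun x => f x * f x) := ((hS3 X K).2.1 f f hf.1 hf.1).2
  obtain ⟨C, hC, hCh⟩ := hS5 X K _ hf2
  have hm := (hCh C le_rfl).1
  -- total masses
  have hone : (fun _ : X => (1 : ℝ)) ∈ K.PS := (hS9 X K).1 1
  have e1 : K.Ms (fun _ => 1) g = K.Ms (fun _ => 0) g := by
    have := (hS9 X K).2.2.2.2.2.1 (fun _ => 0) hzero g hg 1
    simpa using this
  have st := hS7 X K _ hm _ hzero g hg _ hone
  rw [e1, sub_self] at st
  -- bounds
  have hbd : ∃ B : ℝ, ∀ x, |f x| ≤ B := by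
    obtain ⟨B, hB⟩ := (isCompact_range hfc.abs).bddAbove
    exact ⟨B, fun x => hB ⟨x, rfl⟩⟩
  have hbd1 : ∃ B : ℝ, ∀ x : X, |(fun _ : X => (1 : ℝ)) x| ≤ B := ⟨1, fun x => by simp⟩
  have s1 := S8_sum hS1 hS2 K _ g hm hg (fun _ => 1) measurable_const hbd1
  have s2 := S8_sum hS1 hS2 K _ g hzero hg (fun _ => 1) measurable_const hbd1
  have s3 := S8_sum hS1 hS2 K f g hf hg f hfc.measurable hbd
  have s4 := S8_sum hS1 hS2 K _ g hzero hg f hfc.measurable hbd
  rw [s1.2, s2.2, ← Finset.sum_sub_distrib] at st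
  rw [s3.2, s4.2, ← sub_nonpos, ← Finset.sum_sub_distrib]
  have key : (2 / C) * (∑ i : Fin K.n, ((∫ y in (K.e i).target, (S1_P K i).indicator f ((K.e i).symm y) *
      dens (K.pot i f) (K.pot i g) y) - ∫ y in (K.e i).target, (S1_P K i).indicator f ((K.e i).symm y) *
      dens (K.pot i (fun _ => 0)) (K.pot i g) y)) ≤ 0 := by
    refine le_of_le_of_eq ?_ st
    rw [Finset.mul_sum]
    apply Finset.sum_le_sum
    intro i _
    rw [← integral_sub (s3.1 i) (s4.1 i), ← integral_sub (s1.1 i) (s2.1 i), ← integral_const_mul]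
    apply setIntegral_mono_on (((s3.1 i).sub (s4.1 i)).const_mul _) ((s1.1 i).sub (s2.1 i))
      (K.e i).open_target.measurableSet
    intro y hy
    simp only [Pi.sub_apply]
    by_cases hP : (K.e i).symm y ∈ S1_P K i
    · rw [Set.indicator_of_mem hP, Set.indicator_of_mem hP]
      have hρ : ContDiffAt ℝ 2 (K.ρ i) y :=
        ((K.ρ_smooth i).contDiffAt ((K.e i).open_target.mem_nhds hy)).of_le S1_two_le
      have hlo := S9_lo_at K f hf.1 i _ hy
      have hlo2 := S9_lo_at K _ hf2 i _ hy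
      have hgat := S9_at K g hg.1 i _ hy
      have e : K.pot i (fun _ => 0) = K.ρ i := by
        funext z
        simp [KS.pot]
      have ef : K.pot i f = fun y => 1 * K.ρ i y + 1 * K.lo i f y := by
        funext z
        simp only [KS.pot, KS.lo, one_mul]
      have p1 := (hC2.2.2.2.2.1 (K.ρ i) (K.lo i f) (K.pot i g) y 1 1 hρ hlo).2
      have p2 := (hC2.2.2.2.2.1 (K.ρ i) (K.lo i (fun x => f x * f x)) (K.pot i g) y 1 (1 / C) hρ hlo2).2
      have p3 := hC2.2.2.2.2.2.2 (K.lo i f) (K.pot i g) y hlo hgat (hg.2 i y hy)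
      have esq : (fun y => K.lo i f y ^ 2) = K.lo i (fun x => f x * f x) := by
        funext z
        simp only [KS.lo]
        ring
      rw [esq] at p3
      rw [e, ef, S11_pot, p1, p2]
      have hfy : f ((K.e i).symm y) = K.lo i f y := rfl
      rw [hfy]
      have hC' : 0 < 1 / C := by positivity
      have := mul_le_mul_of_nonneg_left p3 hC'.le
      have e3 : 2 / C * (K.lo i f y * (1 * dens (K.ρ i) (K.pot i g) y + 1 * dens (K.lo i f) (K.pot i g) y) -
          K.lo i f y * dens (K.ρ i) (K.pot i g) y) = 1 / C * (2 * K.lo i f y * dens (K.lo i f) (K.pot i g) y) := by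
        ring
      rw [e3]
      linarith
    · rw [Set.indicator_of_notMem hP, Set.indicator_of_notMem hP]
      simp
  have hC' : 0 < 2 / C := by positivity
  by_contra hcon
  push Not at hcon
  have := mul_pos hC' hcon
  linarith

end MAP
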