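import Mathlib
import Pool.Agent.helper50.MA.Spec2
import Pool.Agent.helper45.MA.D5

set_option autoImplicit false

open MeasureTheory Set Filter Topology
open scoped ContDiff Real

namespace MAP

theorem D6_nsq_contDiff (c : C2) : ContDiff ℝ ∞ (fun y : C2 => nsq (y - c)) := by
  unfold nsq
  have h1 : ContDiff ℝ ∞ (fun y : C2 => (y - c).1) := contDiff_fst.comp (contDiff_id.sub contDiff_const)
  have h2 : ContDiff ℝ ∞ (fun y : C2 => (y - c).2) := contDiff_snd.comp (contDiff_id.sub contDiff_const)
  exact (h1.norm_sq ℝ).add (h2.norm_sq ℝ)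

theorem D6_compact (c : C2) (s : ℝ) : IsCompact {y : C2 | nsq (y - c) ≤ s} := by
  apply Metric.isCompact_of_isClosed_isBounded
  · exact isClosed_le (D6_nsq_contDiff c).continuous continuous_const
  · apply (Metric.isBounded_closedBall (x := c) (r := s + 1)).subset
    intro y hy
    rw [Metric.mem_closedBall, dist_eq_norm, Prod.norm_def]
    have hy' : ‖(y - c).1‖ ^ 2 + ‖(y - c).2‖ ^ 2 ≤ s := hy
    apply max_le
    · nlinarith [sq_nonneg (‖(y - c).1‖ - 1), sq_nonneg ‖(y - c).2‖, sq_nonneg ‖(y - c).1‖]
    · nlinarith [sq_nonneg (‖(y - c).2‖ - 1), sq_nonneg ‖(y - c).2‖, sq_nonneg ‖(y - c).1‖]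

theorem D6_isM {X : Type} [TopologicalSpace X] [CompactSpace X] [T2Space X] [SecondCountableTopology X]
    [MeasurableSpace X] [BorelSpace X] (hS1 : S1_stmt) (K : KS X) (f g : X → ℝ) (hf : f ∈ K.PS) (hg : g ∈ K.PS) :
    K.IsM f g (K.Ms f g) := by
  have h := hS1 X K f hf g hg
  unfold KS.Ms
  rw [dif_pos h]
  exact Classical.choose_spec h

theorem D6 (h1 : D1_stmt) (hR : R3_stmt) (hS1 : S1_stmt) (hS2 : S2_stmt) (h3 : S3_stmt) : D6_stmt := by
  intro X _ _ _ _ _ _ K f hf i c r hr hcb hMA
  have hsub : K.PS ⊆ K.C0 := (h3 X K).2.2.2.2.2.2.2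
  obtain ⟨v, hv, hvu⟩ := D5_unif hR K f hf
  obtain ⟨hex, hag⟩ := h1 X K
  have m1 := (hex f hf f hf).1
  have fin1 := m1.1
  have hbal : bal c r ⊆ (K.e i).target := by
    intro y hy
    apply hcb
    have : nsq (y - c) < r ^ 2 := hy
    exact this.le
  -- the sublevel sets are null
  have key : ∀ s : ℝ, s < r ^ 2 → K.M f f {x | x ∈ (K.e i).source ∧ nsq (K.e i x - c) ≤ s} = 0 := by
    intro s hs
    set s' : ℝ := (s + r ^ 2) / 2 with hs'
    have hss' : s < s' := by rw [hs']; linarith
    have hs'r : s' < r ^ 2 := by rw [hs']; linarith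
    set h : C2 → ℝ := fun y => Real.smoothTransition ((s' - nsq (y - c)) / (s' - s)) with hh
    have hsm : ContDiff ℝ ∞ h := by
      apply Real.smoothTransition.contDiff.comp
      exact (contDiff_const.sub (D6_nsq_contDiff c)).div_const _
    have hzero : ∀ y, y ∉ {y : C2 | nsq (y - c) ≤ s'} → h y = 0 := by
      intro y hy
      have hy' : s' < nsq (y - c) := not_le.1 hy
      apply Real.smoothTransition.zero_of_nonpos
      apply div_nonpos_of_nonpos_of_nonneg <;> linarith
    have hone : ∀ y, nsq (y - c) ≤ s → h y = 1 := by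
      intro y hy
      apply Real.smoothTransition.one_of_one_le
      rw [le_div_iff₀ (by linarith)]
      linarith
    have hcs : HasCompactSupport h := HasCompactSupport.intro (D6_compact c s') hzero
    have hts0 : tsupport h ⊆ {y : C2 | nsq (y - c) ≤ s'} := by
      apply closure_minimal
      · intro y hy
        by_contra hy'
        exact hy (hzero y hy')
      · exact isClosed_le (D6_nsq_contDiff c).continuous continuous_const
    have hts : tsupport h ⊆ bal c r := by
      intro y hy
      have := hts0 hy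
      exact lt_of_le_of_lt this hs'r
    set H : X → ℝ := Set.indicator (K.e i).source (fun x => h (K.e i x)) with hH
    have hHs : K.Smo H := (h3 X K).1 i h hsm hcs (hts.trans hbal)
    have hHc : Continuous H := (h3 X K).2.2.2.1 H hHs
    have hH0 : ∀ x, 0 ≤ H x := by
      intro x
      apply Set.indicator_nonneg
      intro x _
      exact Real.smoothTransition.nonneg _
    have hH1 : ∀ x, |H x| ≤ 1 := by
      intro x
      rw [abs_of_nonneg (hH0 x)]
      by_cases hx : x ∈ (K.e i).source
      · rw [hH, Set.indicator_of_mem hx]; exact Real.smoothTransition.le_one _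
      · rw [hH, Set.indicator_of_notMem hx]; norm_num
    -- the integrals converge to zero
    have t1 : Tendsto (fun n => ∫ y, h y * dens (K.pot i (v n)) (K.pot i (v n)) y) atTop (𝓝 0) := by
      apply hMA h hsm hcs hts (fun n => K.pot i (v n))
      · intro n
        exact ((K.ρ_smooth i).mono hbal).add (((hv n).1 i).mono hbal)
      · intro n
        have := (hsub (hv n)).2 i
        exact ⟨this.1.mono hbal, fun x ξ hd => this.2 x ξ (hd.trans hbal)⟩
      · intro F _ _
        rw [Metric.tendstoUniformlyOn_iff]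
        intro ε hε
        filter_upwards [hvu (ε / 2) (by positivity)] with n hn y _
        have e : K.pot i f y - K.pot i (v n) y = -(v n ((K.e i).symm y) - f ((K.e i).symm y)) := by
          simp only [KS.pot]; ring
        rw [Real.dist_eq, e, abs_neg]
        exact lt_of_le_of_lt (hn _) (by linarith)
    have e2 : ∀ n, ∫ x, H x ∂K.Ms (v n) (v n) = ∫ y, h y * dens (K.pot i (v n)) (K.pot i (v n)) y := by
      intro n
      have q := ((hS2 X K (v n) (hv n) (v n) (hv n) _ (D6_isM hS1 K _ _ (hv n) (hv n))).2 i H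
        hHc.measurable ⟨1, hH1⟩ (fun x hx => Set.indicator_of_notMem hx _)).2
      rw [q]
      have q2 : ∫ y in (K.e i).target, H ((K.e i).symm y) * dens (K.pot i (v n)) (K.pot i (v n)) y =
          ∫ y in (K.e i).target, h y * dens (K.pot i (v n)) (K.pot i (v n)) y := by
        apply setIntegral_congr_fun (K.e i).open_target.measurableSet
        intro y hy
        have hy' := (K.e i).map_target hy
        simp only [hH, Set.indicator_of_mem hy', (K.e i).right_inv hy]
      rw [q2]
      apply setIntegral_eq_integral_of_forall_compl_eq_zero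
      intro y hy
      have : h y = 0 := by
        apply hzero
        intro hy'
        exact hy (hbal (lt_of_le_of_lt hy' hs'r))
      rw [this, zero_mul]
    have t2 := m1.2 v v hv hv hvu hvu H hHc
    simp_rw [e2] at t2
    have e3 : ∫ x, H x ∂K.M f f = 0 := tendsto_nhds_unique t2 t1
    have hae : H =ᵐ[K.M f f] 0 := (integral_eq_zero_iff_of_nonneg hH0 (D5_intc _ H hHc)).1 e3
    refine measure_mono_null ?_ hae
    intro x hx hx'
    have h1' : H x = 1 := by
      rw [hH, Set.indicator_of_mem hx.1]; exact hone _ hx.2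
    have h2' : H x = 0 := hx'
    rw [h1'] at h2'
    norm_num at h2'
  have hU : {x | x ∈ (K.e i).source ∧ K.e i x ∈ bal c r} ⊆
      ⋃ n : ℕ, {x | x ∈ (K.e i).source ∧ nsq (K.e i x - c) ≤ r ^ 2 - 1 / ((n : ℝ) + 1)} := by
    intro x hx
    have hx2 : nsq (K.e i x - c) < r ^ 2 := hx.2
    obtain ⟨n, hn⟩ := exists_nat_one_div_lt (sub_pos.2 hx2)
    rw [mem_iUnion]
    exact ⟨n, hx.1, by linarith⟩
  refine measure_mono_null hU (measure_iUnion_null fun n => key _ ?_)
  have : (0 : ℝ) < 1 / ((n : ℝ) + 1) := by positivity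
  linarith

end MAP
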