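import Mathlib
import Pool.Agent.helper50.MA.Spec3
import Pool.Agent.helper4.MA.C2
import Pool.Agent.helper43.MA.K3
import Pool.Agent.helper45.MA.S1

/-!
# Project ma, module K5, part a: integrability lemmas and the overlap estimate.
-/

set_option autoImplicit false

open MeasureTheory Set Filter Topology Complex
open scoped ContDiff Real

namespace MAP

noncomputable section

theorem K5_usc_comp {α : Type} [TopologicalSpace α] (U : Set C2) (u : C2 → ℝ) (hu : UpperSemicontinuousOn u U)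
    (g : α → C2) (hg : Continuous g) (hgU : ∀ a, g a ∈ U) : UpperSemicontinuous (fun a => u (g a)) := by
  intro a c hc
  have h1 := hu (g a) (hgU a) c hc
  have h2 : Tendsto g (𝓝 a) (𝓝[U] (g a)) :=
    tendsto_nhdsWithin_iff.2 ⟨hg.tendsto a, Eventually.of_forall hgU⟩
  exact h2.eventually h1

theorem K5_disc_compact (x ξ : C2) : IsCompact (disc x ξ) := by
  have h1 : disc x ξ = (fun ζ : ℂ => x + ζ • ξ) '' Metric.closedBall 0 1 := by
    ext y
    constructor
    · rintro ⟨ζ, hζ, rfl⟩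
      exact ⟨ζ, by simpa using hζ, rfl⟩
    · rintro ⟨ζ, hζ, rfl⟩
      exact ⟨ζ, by simpa using hζ, rfl⟩
  rw [h1]
  exact (isCompact_closedBall 0 1).image (by fun_prop)

theorem K5_circle_mem (x ξ : C2) (θ : ℝ) : x + cexp (θ * I) • ξ ∈ disc x ξ :=
  ⟨cexp (θ * I), by rw [Complex.norm_exp_ofReal_mul_I], rfl⟩

theorem K5_circle (U : Set C2) (u : C2 → ℝ) (hu : UpperSemicontinuousOn u U)
    (hb : ∀ K, K ⊆ U → IsCompact K → ∃ m : ℝ, ∀ x ∈ K, |u x| ≤ m) (x ξ : C2) (hd : disc x ξ ⊆ U) :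
    IntervalIntegrable (fun θ : ℝ => u (x + cexp (θ * I) • ξ)) volume 0 (2 * π) := by
  obtain ⟨m, hm⟩ := hb _ hd (K5_disc_compact x ξ)
  have h1 : UpperSemicontinuous (fun θ : ℝ => u (x + cexp (θ * I) • ξ)) :=
    K5_usc_comp U u hu (fun θ : ℝ => x + cexp (θ * I) • ξ) (by fun_prop) (fun θ => hd (K5_circle_mem x ξ θ))
  have h2 : IntervalIntegrable (fun _ : ℝ => m) volume 0 (2 * π) := intervalIntegrable_const
  apply h2.mono_fun h1.measurable.aestronglyMeasurable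
  apply Eventually.of_forall
  intro θ
  have := hm _ (K5_circle_mem x ξ θ)
  show ‖u (x + cexp (θ * I) • ξ)‖ ≤ ‖m‖
  simp only [Real.norm_eq_abs]
  exact this.trans (le_abs_self _)

theorem K5_ker_int (χ : C2 → ℝ) (hχ : IsKer χ) (U : Set C2) (u : C2 → ℝ) (hu : UpperSemicontinuousOn u U)
    (hb : ∀ K, K ⊆ U → IsCompact K → ∃ m : ℝ, ∀ x ∈ K, |u x| ≤ m) (x : C2) (δ : ℝ)
    (hd : ∀ y, nsq y ≤ 1 → x + δ • y ∈ U) : Integrable (fun y => χ y * u (x + δ • y)) := by
  have hBc : IsCompact (cbal 0 1) := K3_cbal_compact 0 1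
  have hB : ∀ y, y ∈ cbal 0 1 ↔ nsq y ≤ 1 := by
    intro y
    show nsq (y - 0) ≤ 1 ^ 2 ↔ _
    rw [sub_zero, one_pow]
  have hBm : MeasurableSet (cbal 0 1) := hBc.isClosed.measurableSet
  obtain ⟨m, hm⟩ := hb ((fun y : C2 => x + δ • y) '' cbal 0 1)
    (by rintro _ ⟨y, hy, rfl⟩; exact hd y ((hB y).1 hy)) (hBc.image (by fun_prop))
  have h1 : UpperSemicontinuous (fun a : cbal 0 1 => u (x + δ • (a : C2))) :=
    K5_usc_comp U u hu (fun a : cbal 0 1 => x + δ • (a : C2)) (by fun_prop) (fun a => hd a ((hB a).1 a.2))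
  have h2 : AEMeasurable (fun y : C2 => u (x + δ • y)) (volume.restrict (cbal 0 1)) :=
    aemeasurable_restrict_of_measurable_subtype hBm h1.measurable
  obtain ⟨c, hc⟩ := hBc.exists_bound_of_continuousOn hχ.1.continuous.continuousOn
  have h3 : IntegrableOn (fun y => χ y * u (x + δ • y)) (cbal 0 1) := by
    have hfin : IsFiniteMeasure (volume.restrict (cbal 0 1)) :=
      ⟨by rw [Measure.restrict_apply_univ]; exact hBc.measure_lt_top⟩
    apply Integrable.of_bound (C := |c| * |m|)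
    · exact (hχ.1.continuous.measurable.aemeasurable.mul h2).aestronglyMeasurable
    · rw [ae_restrict_iff' hBm]
      apply Eventually.of_forall
      intro y hy
      rw [norm_mul]
      apply mul_le_mul
      · exact (hc y hy).trans (le_abs_self _)
      · rw [Real.norm_eq_abs]; exact (hm _ ⟨y, hy, rfl⟩).trans (le_abs_self _)
      · exact norm_nonneg _
      · exact abs_nonneg _
  apply h3.integrable_of_forall_notMem_eq_zero
  intro y hy
  have : χ y = 0 := by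
    apply hχ.2.2.1
    by_contra hc'
    exact hy ((hB y).2 (not_le.1 hc').le)
  rw [this, zero_mul]

theorem K5_cv_congr (χ : C2 → ℝ) (hχ : IsKer χ) (u u' : C2 → ℝ) (δ : ℝ) (x : C2)
    (h : ∀ y, nsq y ≤ 1 → u (x + δ • y) = u' (x + δ • y)) : cv χ u δ x = cv χ u' δ x := by
  unfold cv
  congr 1
  funext y
  by_cases hy : nsq y ≤ 1
  · rw [h y hy]
  · rw [hχ.2.2.1 y (not_le.1 hy).le, zero_mul, zero_mul]

section
variable {X : Type} [TopologicalSpace X] (K : KS X)

/-- difference of the local potentials -/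
def K5_H (i j : Fin K.n) (y : C2) : ℝ := K.ρ j (K.e j ((K.e i).symm y)) - K.ρ i y

theorem K5_H_smooth (i j : Fin K.n) : ContDiffOn ℝ ∞ (K5_H K i j) (S1_V K i j) := by
  have h1 : ContDiffOn ℝ ∞ (fun y => K.ρ j (K.e j ((K.e i).symm y))) (S1_V K i j) := fun y hy =>
    (S1_comp_at K i j y hy _ (K.ρ_smooth j)).contDiffWithinAt
  exact h1.sub ((K.ρ_smooth i).mono (fun y hy => hy.1))

theorem K5_H_lap (i j : Fin K.n) (y : C2) (hy : y ∈ S1_V K i j) (ξ : C2) : lap (K5_H K i j) y ξ = 0 := by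
  have c1 : ContDiffAt ℝ 2 (fun z => K.ρ j (K.e j ((K.e i).symm z))) y :=
    (S1_comp_at K i j y hy _ (K.ρ_smooth j)).of_le S1_two_le
  have c3 : ContDiffAt ℝ 2 (K.ρ i) y :=
    ((K.ρ_smooth i).contDiffAt ((K.e i).open_target.mem_nhds hy.1)).of_le S1_two_le
  have e : K5_H K i j = fun z => 1 * (fun z => K.ρ j (K.e j ((K.e i).symm z))) z + (-1) * K.ρ i z := by
    funext z
    simp only [K5_H]
    ring
  rw [e, C2_lapcomb (fun z => K.ρ j (K.e j ((K.e i).symm z))) (K.ρ i) y 1 (-1) c1 c3 ξ,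
    K.compat i j y hy.1 hy.2 ξ]
  ring

theorem K5_lap_neg (u : C2 → ℝ) (x ξ : C2) : lap (fun y => -u y) x ξ = -lap u x ξ := by
  have h1 : fderiv ℝ (fun y => -u y) = fun y => -fderiv ℝ u y := by
    funext y
    exact fderiv_fun_neg
  have h2 : fderiv ℝ (fun y => -fderiv ℝ u y) x = -fderiv ℝ (fderiv ℝ u) x := fderiv_fun_neg
  simp only [lap, D2, h1, h2]
  simp
  ring

theorem K5_H_mean (h3 : A3_stmt) (i j : Fin K.n) (x ξ : C2) (hd : disc x ξ ⊆ S1_V K i j) :
    mean (K5_H K i j) x ξ = K5_H K i j x := by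
  have hs := (K5_H_smooth K i j).of_le S1_two_le
  have p1 := (h3.2 _ _ (S1_V_open K i j) hs).2 (fun y hy ξ => (K5_H_lap K i j y hy ξ).ge)
  have p2 := (h3.2 _ (fun y => -K5_H K i j y) (S1_V_open K i j) hs.neg).2 (fun y hy ξ => by
    rw [K5_lap_neg, K5_H_lap K i j y hy ξ, neg_zero])
  have q1 := p1.2 x ξ hd
  have q2 := p2.2 x ξ hd
  have e : mean (fun y => -K5_H K i j y) x ξ = -mean (K5_H K i j) x ξ := by
    unfold mean
    rw [intervalIntegral.integral_neg]
    ring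
  rw [e] at q2
  apply le_antisymm
  · linarith
  · exact q1

theorem K5_pot_eq (φ : X → ℝ) (i j : Fin K.n) (y : C2) (hy : y ∈ S1_V K i j) :
    K.pot j φ (K.e j ((K.e i).symm y)) = K.pot i φ y + K5_H K i j y := by
  simp only [KS.pot, K5_H]
  rw [(K.e j).left_inv hy.2]
  ring

theorem K5_H_bdd (i j : Fin K.n) (L : Set C2) (hL : L ⊆ S1_V K i j) (hc : IsCompact L) :
    ∃ m : ℝ, ∀ x ∈ L, |K5_H K i j x| ≤ m := by
  obtain ⟨C, hC⟩ := hc.exists_bound_of_continuousOn ((K5_H_smooth K i j).continuousOn.mono hL)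
  exact ⟨C, fun x hx => hC x hx⟩

theorem K5_comp (h3 : A3_stmt) (φ : X → ℝ) (hφ : ∀ i, PshB (K.e i).target (K.pot i φ)) (i j : Fin K.n) :
    PshB (S1_V K i j) (fun y => K.pot j φ (K.e j ((K.e i).symm y))) := by
  have hsub : S1_V K i j ⊆ (K.e i).target := fun y hy => hy.1
  obtain ⟨u1, u2, u3⟩ := hφ i
  have hHc := (K5_H_smooth K i j).continuousOn
  have husc : UpperSemicontinuousOn (fun y => K.pot i φ y + K5_H K i j y) (S1_V K i j) := by
    intro y hy
    exact UpperSemicontinuousWithinAt.add ((u1.mono hsub) y hy) (hHc.upperSemicontinuousOn y hy)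
  refine ⟨?_, ?_, ?_⟩
  · intro y hy c hc
    simp only at hc
    rw [K5_pot_eq K φ i j y hy] at hc
    filter_upwards [husc y hy c hc, self_mem_nhdsWithin] with z hz hzV
    rw [K5_pot_eq K φ i j z hzV]
    exact hz
  · intro L hL hc
    obtain ⟨m1, hm1⟩ := u2 L (hL.trans hsub) hc
    obtain ⟨m2, hm2⟩ := K5_H_bdd K i j L hL hc
    refine ⟨m1 + m2, fun x hx => ?_⟩
    simp only
    rw [K5_pot_eq K φ i j x (hL hx)]
    exact (abs_add_le _ _).trans (add_le_add (hm1 x hx) (hm2 x hx))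
  · intro x ξ hd
    have hx : x ∈ S1_V K i j := hd ⟨0, by simp, by simp⟩
    have e1 : mean (fun y => K.pot j φ (K.e j ((K.e i).symm y))) x ξ =
        mean (K.pot i φ) x ξ + mean (K5_H K i j) x ξ := by
      unfold mean
      rw [← mul_add, ← intervalIntegral.integral_add
        (K5_circle _ _ u1 u2 x ξ (hd.trans hsub))
        (K5_circle _ _ hHc.upperSemicontinuousOn (fun L hL hc => K5_H_bdd K i j L hL hc) x ξ hd)]
      congr 1
      apply intervalIntegral.integral_congr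
      intro θ _
      exact K5_pot_eq K φ i j _ (hd (K5_circle_mem x ξ θ))
    rw [e1, K5_H_mean K h3 i j x ξ hd]
    simp only
    rw [K5_pot_eq K φ i j x hx]
    have := u3 x ξ (hd.trans hsub)
    linarith

theorem K5_PshB_mono (U V : Set C2) (u : C2 → ℝ) (h : PshB U u) (hV : V ⊆ U) : PshB V u :=
  ⟨h.1.mono hV, fun L hL hc => h.2.1 L (hL.trans hV) hc, fun x ξ hd => h.2.2 x ξ (hd.trans hV)⟩

theorem K5_overlap [T2Space X] (h3 : A3_stmt) (hK4 : K4_stmt) (χ : C2 → ℝ) (hχ : IsKer χ) (φ : X → ℝ)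
    (hφ : ∀ i, PshB (K.e i).target (K.pot i φ)) (i j : Fin K.n) (ε : ℝ) (hε : 0 < ε) :
    ∃ δ0 : ℝ, 0 < δ0 ∧ ∀ δ : ℝ, 0 < δ → δ < δ0 → ∀ x : X, x ∈ (K.e i).source → x ∈ (K.e j).source →
      K.e i x ∈ cbal (K.c i) (K.R i) → K.e j x ∈ cbal (K.c j) (K.R j) →
      |(cv χ (K.pot i φ) δ (K.e i x) - K.ρ i (K.e i x)) -
        (cv χ (K.pot j φ) δ (K.e j x) - K.ρ j (K.e j x))| ≤ ε := by
  have hV := S1_V_open K i j
  have hU := S1_V_open K j i
  -- the compact overlap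
  set Ci : Set X := (K.e i).symm '' cbal (K.c i) (K.R i) with hCi
  set Cj : Set X := (K.e j).symm '' cbal (K.c j) (K.R j) with hCj
  have cCi : IsCompact Ci := (K3_cbal_compact _ _).image_of_continuousOn
    ((K.e i).continuousOn_symm.mono (K.ball_sub i))
  have cCj : IsCompact Cj := (K3_cbal_compact _ _).image_of_continuousOn
    ((K.e j).continuousOn_symm.mono (K.ball_sub j))
  have sCi : Ci ⊆ (K.e i).source := by
    rintro _ ⟨y, hy, rfl⟩; exact (K.e i).map_target (K.ball_sub i hy)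
  have sCj : Cj ⊆ (K.e j).source := by
    rintro _ ⟨y, hy, rfl⟩; exact (K.e j).map_target (K.ball_sub j hy)
  set L : Set C2 := (K.e i) '' (Ci ∩ Cj) with hL
  have cL : IsCompact L := (cCi.inter cCj).image_of_continuousOn
    ((K.e i).continuousOn.mono (inter_subset_left.trans sCi))
  have hLV : L ⊆ S1_V K i j := by
    rintro _ ⟨x, hx, rfl⟩
    refine ⟨(K.e i).map_source (sCi hx.1), ?_⟩
    rw [(K.e i).left_inv (sCi hx.1)]
    exact sCj hx.2
  have hF : ContDiffOn ℂ 1 (fun y => K.e j ((K.e i).symm y)) (S1_V K i j) :=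
    (K.hol i j).of_le (WithTop.coe_le_coe.2 (le_top : (1 : ℕ∞) ≤ ⊤))
  have hG : ContDiffOn ℂ 1 (fun y => K.e i ((K.e j).symm y)) (S1_V K j i) :=
    (K.hol j i).of_le (WithTop.coe_le_coe.2 (le_top : (1 : ℕ∞) ≤ ⊤))
  obtain ⟨δ1, hδ1, H1⟩ := hK4.1 χ (S1_V K j i) (S1_V K i j) L (fun y => K.e j ((K.e i).symm y))
    (fun y => K.e i ((K.e j).symm y)) (K.pot j φ) (ε / 2) hχ hU hV hF hG
    (fun y hy => ⟨(K.e j).map_source hy.2, by
      show (K.e j).symm (K.e j ((K.e i).symm y)) ∈ (K.e i).source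
      rw [(K.e j).left_inv hy.2]; exact (K.e i).map_target hy.1⟩)
    (fun y hy => ⟨(K.e i).map_source hy.2, by
      show (K.e i).symm (K.e i ((K.e j).symm y)) ∈ (K.e j).source
      rw [(K.e i).left_inv hy.2]; exact (K.e j).map_target hy.1⟩)
    (fun y hy => by
      show K.e i ((K.e j).symm (K.e j ((K.e i).symm y))) = y
      rw [(K.e j).left_inv hy.2, (K.e i).right_inv hy.1])
    (fun y hy => by
      show K.e j ((K.e i).symm (K.e i ((K.e j).symm y))) = y
      rw [(K.e i).left_inv hy.2, (K.e j).right_inv hy.1])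
    (K5_PshB_mono _ _ _ (hφ j) (fun y hy => hy.1)) (K5_comp K h3 φ hφ i j) cL hLV (half_pos hε)
  obtain ⟨δ2, hδ2, H2⟩ := hK4.2 χ (S1_V K i j) L (K5_H K i j) (ε / 2) hχ hV (K5_H_smooth K i j).continuousOn
    cL hLV (half_pos hε)
  obtain ⟨δ3, L', hδ3, _, hL'V, hLL'⟩ := K3_nbhd (S1_V K i j) L hV cL hLV
  refine ⟨min δ1 (min δ2 δ3), lt_min hδ1 (lt_min hδ2 hδ3), ?_⟩
  intro δ hδ hδ0 x hxi hxj hbi hbj
  have d1 : δ < δ1 := hδ0.trans_le (min_le_left _ _)
  have d2 : δ < δ2 := hδ0.trans_le ((min_le_right _ _).trans (min_le_left _ _))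
  have d3 : δ < δ3 := hδ0.trans_le ((min_le_right _ _).trans (min_le_right _ _))
  have hyL : K.e i x ∈ L := ⟨x, ⟨⟨K.e i x, hbi, (K.e i).left_inv hxi⟩,
    ⟨K.e j x, hbj, (K.e j).left_inv hxj⟩⟩, rfl⟩
  have hyV := hLV hyL
  have hmem : ∀ z : C2, nsq z ≤ 1 → K.e i x + δ • z ∈ S1_V K i j := by
    intro z hz
    apply hL'V
    apply hLL' _ hyL
    show nsq (K.e i x + δ • z - K.e i x) ≤ δ3 ^ 2
    rw [add_sub_cancel_left]
    have e : nsq (δ • z) = δ ^ 2 * nsq z := by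
      unfold nsq
      rw [Prod.smul_fst, Prod.smul_snd, norm_smul, norm_smul, mul_pow, mul_pow, Real.norm_eq_abs, sq_abs]
      ring
    rw [e]
    have h0 : 0 ≤ nsq z := K3_nsq_nonneg z
    nlinarith
  have a1 := H1 δ hδ d1 _ hyL
  have a2 := H2 δ hδ d2 _ hyL
  have e1 : cv χ (fun y => K.pot j φ (K.e j ((K.e i).symm y))) δ (K.e i x) =
      cv χ (K.pot i φ) δ (K.e i x) + cv χ (K5_H K i j) δ (K.e i x) := by
    rw [K5_cv_congr χ hχ _ (fun y => K.pot i φ y + K5_H K i j y) δ (K.e i x)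
      (fun z hz => K5_pot_eq K φ i j _ (hmem z hz))]
    unfold cv
    rw [← integral_add]
    · congr 1
      funext z
      ring
    · exact K5_ker_int χ hχ _ _ (hφ i).1 (hφ i).2.1 _ _ (fun z hz => (hmem z hz).1)
    · exact K5_ker_int χ hχ _ _ (K5_H_smooth K i j).continuousOn.upperSemicontinuousOn
        (fun L hL hc => K5_H_bdd K i j L hL hc) _ _ hmem
  rw [e1, (K.e i).left_inv hxi] at a1
  have e2 : K5_H K i j (K.e i x) = K.ρ j (K.e j x) - K.ρ i (K.e i x) := by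
    simp only [K5_H]
    rw [(K.e i).left_inv hxi]
  rw [e2] at a2
  rw [abs_le] at a1 a2 ⊢
  constructor <;> linarith [a1.1, a1.2, a2.1, a2.2]

end

end

end MAP
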