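import Mathlib
import Pool.Agent.helper50.MA.Spec3
import Pool.Agent.helper43.MA.S5
import Pool.Agent.helper63.MA.R3
import Pool.Agent.helper45.MA.S9
import Pool.Agent.helper45.MA.K5a

/-!
# Project ma, module K5: regularisation of bounded omega-psh functions.
-/

set_option autoImplicit false

open MeasureTheory Set Filter Topology Complex
open scoped ContDiff Real

namespace MAP

noncomputable section

theorem K5_small2 {n : ℕ} (a : Fin n → Fin n → ℝ) (ha : ∀ i j, 0 < a i j) :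
    ∃ η : ℝ, 0 < η ∧ ∀ i j, η ≤ a i j := by
  have h1 : ∀ i, ∃ η : ℝ, 0 < η ∧ η ≤ 1 ∧ ∀ j, η ≤ a i j := fun i => R3_small (a i) (ha i) 1 one_pos
  choose b hb0 _ hb using h1
  obtain ⟨η, h0, _, h2⟩ := R3_small b hb0 1 one_pos
  exact ⟨η, h0, fun i j => (h2 i).trans (hb i j)⟩

theorem K5_seq (D : ℕ → ℝ) (hD : ∀ k, 0 < D k) (d0 : ℝ) (hd0 : 0 < d0) :
    ∃ δ : ℕ → ℝ, (∀ k, 0 < δ k) ∧ (∀ k, δ k < D k) ∧ (∀ k, δ k ≤ d0) ∧ (∀ k, δ (k + 1) ≤ δ k) ∧
      Tendsto δ atTop (𝓝[>] 0) := by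
  let δ : ℕ → ℝ := fun k => Nat.rec (min (D 0 / 2) d0) (fun k d => min (D (k + 1) / 2) (d / 2)) k
  have hs : ∀ k, δ (k + 1) = min (D (k + 1) / 2) (δ k / 2) := fun k => rfl
  have h0 : δ 0 = min (D 0 / 2) d0 := rfl
  have hpos : ∀ k, 0 < δ k := by
    intro k
    induction k with
    | zero => rw [h0]; exact lt_min (by have := hD 0; positivity) hd0
    | succ k ih => rw [hs]; exact lt_min (by have := hD (k + 1); positivity) (by positivity)
  have hb : ∀ k, δ k ≤ d0 * (1 / 2) ^ k := by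
    intro k
    induction k with
    | zero => rw [h0]; simp
    | succ k ih =>
      rw [hs, pow_succ]
      calc min (D (k + 1) / 2) (δ k / 2) ≤ δ k / 2 := min_le_right _ _
        _ ≤ d0 * (1 / 2) ^ k / 2 := by linarith
        _ = d0 * ((1 / 2) ^ k * (1 / 2)) := by ring
  refine ⟨δ, hpos, ?_, ?_, ?_, ?_⟩
  · intro k
    cases k with
    | zero =>
      rw [h0]
      have := hD 0
      exact lt_of_le_of_lt (min_le_left _ _) (by linarith)
    | succ k =>
      rw [hs]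
      have := hD (k + 1)
      exact lt_of_le_of_lt (min_le_left _ _) (by linarith)
  · intro k
    have h1 : (1 / 2 : ℝ) ^ k ≤ 1 := pow_le_one₀ (by norm_num) (by norm_num)
    have := hb k
    nlinarith
  · intro k
    rw [hs]
    have := hpos k
    exact (min_le_right _ _).trans (by linarith)
  · rw [tendsto_nhdsWithin_iff]
    refine ⟨?_, Eventually.of_forall hpos⟩
    have h1 : Tendsto (fun k : ℕ => d0 * (1 / 2 : ℝ) ^ k) atTop (𝓝 (d0 * 0)) :=
      (tendsto_pow_atTop_nhds_zero_of_lt_one (by norm_num) (by norm_num)).const_mul d0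
    rw [mul_zero] at h1
    exact squeeze_zero (fun k => (hpos k).le) hb h1

theorem K5 (hK0 : K0_stmt) (hK2 : K2_stmt) (hK4 : K4_stmt) (hR2 : R2_stmt) (h1 : A1_stmt) (h3 : A3_stmt) :
    K5_stmt := by
  intro X _ _ _ K φ hφb hφ
  obtain ⟨m0, hm0⟩ := hφb
  obtain ⟨χ, hχ⟩ := hK0
  have hk2 := fun i => hK2 χ (K.e i).target (cbal (K.c i) (K.R i)) (K.pot i φ) hχ (K.e i).open_target (hφ i)
    (K3_cbal_compact _ _) (K.ball_sub i)
  choose W δW hWo hKW hWt hδW hsm hmono hge hlim using hk2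
  -- shrunken charts
  have hL : ∀ i, ∃ L : Set C2, IsCompact L ∧ cbal (K.c i) (K.R i) ⊆ interior L ∧ L ⊆ W i := fun i =>
    exists_compact_between (K3_cbal_compact _ _) (hWo i) (hKW i)
  choose L hLc hL1 hL2 using hL
  have hLt : ∀ i, L i ⊆ (K.e i).target := fun i => (hL2 i).trans (hWt i)
  have hcmp : ∀ i, ∃ c : ℝ, 0 ≤ c ∧ ∀ y ∈ L i, ∀ ξ : C2,
      |lap (fun y => nsq (y - K.c i)) y ξ| ≤ c * lap (K.ρ i) y ξ := fun i =>
    S5_cmp (K.e i).target (L i) (K.e i).open_target (hLc i) (hLt i) (K.ρ i) (fun y => nsq (y - K.c i))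
      (K.ρ_smooth i) (R3_nsq_smooth _).contDiffOn (K.ρ_pos i)
  choose C hC0 hC1 using hcmp
  -- κ
  obtain ⟨κ, hκ0, -, hκ⟩ := R3_small (fun i => 1 / (C i + 1))
    (fun i => div_pos one_pos (by linarith [hC0 i])) 1 one_pos
  have hκ1 : ∀ i, κ * C i ≤ 1 := by
    intro i
    have e1 := hκ i
    have e2 : 0 < C i + 1 := by linarith [hC0 i]
    rw [le_div_iff₀ e2] at e1
    nlinarith
  -- radii
  obtain ⟨r2, hr0, -, hr⟩ := R3_small (fun i => (K.R i) ^ 2) (fun i => by have := K.R_pos i; positivity) 1 one_pos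
  set Rm : ℝ := ∑ i, (K.R i) ^ 2 with hRm
  have hRm1 : ∀ i, (K.R i) ^ 2 ≤ Rm := fun i =>
    Finset.single_le_sum (f := fun i => (K.R i) ^ 2) (fun j _ => sq_nonneg _) (Finset.mem_univ i)
  have hRm0 : 0 ≤ Rm := Finset.sum_nonneg (fun j _ => sq_nonneg _)
  -- σ factor
  obtain ⟨s0, hs0, hs1, hs2⟩ : ∃ s0 : ℝ, 0 < s0 ∧ s0 ≤ 1 ∧ s0 ≤ κ * r2 / 16 :=
    ⟨min 1 (κ * r2 / 16), lt_min one_pos (by positivity), min_le_left _ _, min_le_right _ _⟩
  -- uniform δ00
  obtain ⟨δ00, hδ00, -, hδ001⟩ := R3_small δW hδW 1 one_pos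
  -- the local functions
  obtain ⟨a, ha⟩ : ∃ a : Fin K.n → ℝ → X → ℝ, a = fun i δ x => cv χ (K.pot i φ) δ (K.e i x) - K.ρ i (K.e i x) :=
    ⟨_, rfl⟩
  have hpotx : ∀ i, ∀ x ∈ (K.e i).source, K.pot i φ (K.e i x) = K.ρ i (K.e i x) + φ x := by
    intro i x hx
    show K.ρ i (K.e i x) + φ ((K.e i).symm (K.e i x)) = _
    rw [(K.e i).left_inv hx]
  have hage : ∀ i, ∀ x ∈ (K.e i).source, K.e i x ∈ cbal (K.c i) (K.R i) → ∀ δ, 0 < δ → δ ≤ δ00 → φ x ≤ a i δ x := by
    intro i x hx hxb δ hδ hδ'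
    have := hge i (K.e i x) (hKW i hxb) δ hδ (hδ'.trans (hδ001 i))
    rw [hpotx i x hx] at this
    rw [ha]
    simp only
    linarith
  have hamono : ∀ i, ∀ x ∈ (K.e i).source, K.e i x ∈ cbal (K.c i) (K.R i) → ∀ δ δ', 0 < δ → δ ≤ δ' → δ' ≤ δ00 →
      a i δ x ≤ a i δ' x := by
    intro i x hx hxb δ δ' hδ hδ' hδ''
    have := hmono i (K.e i x) (hKW i hxb) δ δ' hδ hδ' (hδ''.trans (hδ001 i))
    rw [ha]
    simp only
    linarith
  have hB : ∀ i, ∃ B : ℝ, ∀ y ∈ cbal (K.c i) (K.R i), |cv χ (K.pot i φ) δ00 y - K.ρ i y| ≤ B := by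
    intro i
    have c1 : ContinuousOn (fun y => cv χ (K.pot i φ) δ00 y - K.ρ i y) (cbal (K.c i) (K.R i)) :=
      ((hsm i δ00 hδ00 (hδ001 i)).1.continuousOn.mono (hKW i)).sub ((K.ρ_smooth i).continuousOn.mono (K.ball_sub i))
    obtain ⟨B, hB⟩ := (K3_cbal_compact (K.c i) (K.R i)).exists_bound_of_continuousOn c1
    exact ⟨B, fun y hy => hB y hy⟩
  choose B0 hB0 using hB
  set B : ℝ := ∑ i, |B0 i| with hBdef
  have hB1 : ∀ i, ∀ x ∈ (K.e i).source, K.e i x ∈ cbal (K.c i) (K.R i) → ∀ δ, 0 < δ → δ ≤ δ00 → a i δ x ≤ B := by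
    intro i x hx hxb δ hδ hδ'
    have e1 := hamono i x hx hxb δ δ00 hδ hδ' le_rfl
    have e2 := (abs_le.1 (hB0 i (K.e i x) hxb)).2
    have e3 : |B0 i| ≤ B := Finset.single_le_sum (f := fun i => |B0 i|) (fun j _ => abs_nonneg _) (Finset.mem_univ i)
    have e4 := le_abs_self (B0 i)
    rw [ha] at e1 ⊢
    simp only at e1 ⊢
    linarith
  have hBn : 0 ≤ B := Finset.sum_nonneg (fun j _ => abs_nonneg _)
  set Bm : ℝ := |m0| + B with hBm
  have habs : ∀ i, ∀ x ∈ (K.e i).source, K.e i x ∈ cbal (K.c i) (K.R i) → ∀ δ, 0 < δ → δ ≤ δ00 → |a i δ x| ≤ Bm := by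
    intro i x hx hxb δ hδ hδ'
    have e1 := hage i x hx hxb δ hδ hδ'
    have e2 := hB1 i x hx hxb δ hδ hδ'
    have e3 := (abs_le.1 (hm0 x)).1
    have e4 := le_abs_self m0
    have e5 := abs_nonneg m0
    rw [abs_le]
    constructor <;> linarith
  -- thresholds
  obtain ⟨t, ht⟩ : ∃ t : ℕ → ℝ, t = fun k => (1 / 2 : ℝ) ^ k := ⟨_, rfl⟩
  have ht0 : ∀ k, 0 < t k := fun k => by rw [ht]; positivity
  have ht1 : ∀ k, t k ≤ 1 := fun k => by rw [ht]; exact pow_le_one₀ (by norm_num) (by norm_num)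
  have hts : ∀ k, t (k + 1) = t k / 2 := fun k => by rw [ht]; simp only [pow_succ]; ring
  have htl : Tendsto t atTop (𝓝 0) := by
    rw [ht]; exact tendsto_pow_atTop_nhds_zero_of_lt_one (by norm_num) (by norm_num)
  have hD : ∀ k, ∃ D : ℝ, 0 < D ∧ ∀ i j, ∀ δ : ℝ, 0 < δ → δ < D → ∀ x : X, x ∈ (K.e i).source → x ∈ (K.e j).source →
      K.e i x ∈ cbal (K.c i) (K.R i) → K.e j x ∈ cbal (K.c j) (K.R j) → |a i δ x - a j δ x| ≤ κ * t k * r2 / 8 := by
    intro k
    have e1 := fun i j => K5_overlap K h3 hK4 χ hχ φ hφ i j (κ * t k * r2 / 8) (by have := ht0 k; positivity)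
    choose d hd0 hd using e1
    obtain ⟨η, hη0, hη⟩ := K5_small2 d hd0
    refine ⟨η, hη0, fun i j δ hδ hδη x hxi hxj hbi hbj => ?_⟩
    rw [ha]
    exact hd i j δ hδ (hδη.trans_le (hη i j)) x hxi hxj hbi hbj
  choose D hD0 hD1 using hD
  obtain ⟨δ, hδ0, hδD, hδ00', hδdec, hδlim⟩ := K5_seq D hD0 δ00 hδ00
  have hbal : ∀ i, bal (K.c i) (K.R i / 2) ⊆ bal (K.c i) (K.R i) := by
    intro i y hy
    have e1 : nsq (y - K.c i) < (K.R i / 2) ^ 2 := hy
    have e2 := K.R_pos i
    show nsq (y - K.c i) < (K.R i) ^ 2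
    nlinarith
  have hcb : ∀ i, bal (K.c i) (K.R i) ⊆ cbal (K.c i) (K.R i) := by
    intro i y hy
    have e1 : nsq (y - K.c i) < (K.R i) ^ 2 := hy
    exact e1.le
  -- glued functions
  have hglue : ∀ k, ∃ h ∈ K.PS, ∀ x,
      (∀ i, x ∈ (K.e i).source → K.e i x ∈ cbal (K.c i) (K.R i) →
        (1 - t k) * a i (δ k) x + κ * t k * (5 / 8 * (K.R i) ^ 2 - nsq (K.e i x - K.c i)) ≤ h x) ∧
      ∃ i, x ∈ (K.e i).source ∧ K.e i x ∈ bal (K.c i) (K.R i) ∧
        h x ≤ (1 - t k) * a i (δ k) x + κ * t k * (5 / 8 * (K.R i) ^ 2 - nsq (K.e i x - K.c i)) + s0 * t k := by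
    intro k
    have tk0 := ht0 k
    have tk1 := ht1 k
    obtain ⟨v, hv⟩ : ∃ v : Fin K.n → C2 → ℝ, v = fun i y => (1 - t k) * (cv χ (K.pot i φ) (δ k) y - K.ρ i y) +
        κ * t k * (5 / 8 * (K.R i) ^ 2 - nsq (y - K.c i)) := ⟨_, rfl⟩
    have hvx : ∀ i x, v i (K.e i x) = (1 - t k) * a i (δ k) x +
        κ * t k * (5 / 8 * (K.R i) ^ 2 - nsq (K.e i x - K.c i)) := by
      intro i x
      rw [hv, ha]
    have hδk : ∀ i, δ k ≤ δW i := fun i => (hδ00' k).trans (hδ001 i)
    have hvs : ∀ i, ContDiffOn ℝ ∞ (v i) (interior (L i)) := by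
      intro i
      have c1 := (hsm i (δ k) (hδ0 k) (hδk i)).1.mono (interior_subset.trans (hL2 i))
      have c2 := (K.ρ_smooth i).mono (interior_subset.trans (hLt i))
      have c3 : ContDiffOn ℝ ∞ (fun y => 5 / 8 * (K.R i) ^ 2 - nsq (y - K.c i)) (interior (L i)) :=
        contDiffOn_const.sub (R3_nsq_smooth _).contDiffOn
      rw [hv]
      exact (contDiffOn_const.mul (c1.sub c2)).add (contDiffOn_const.mul c3)
    obtain ⟨h, hPS, hh⟩ := hR2 X K (fun i => interior (L i)) v (s0 * t k) (by positivity) (fun i => isOpen_interior)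
      hL1 (fun i => interior_subset.trans (hLt i)) hvs
      (by
        intro i y hy ξ
        have hsub : interior (L i) ⊆ (K.e i).target := interior_subset.trans (hLt i)
        have e1 : PshOn (interior (L i)) (cv χ (K.pot i φ) (δ k)) :=
          (h1 (W i) (hWo i) _ _ (hsm i (δ k) (hδ0 k) (hδk i)).2 (hsm i (δ k) (hδ0 k) (hδk i)).2).2.2.2.2.1 _
            (interior_subset.trans (hL2 i))
        have e2 : PshOn (interior (L i)) (fun y => (1 - t k) * cv χ (K.pot i φ) (δ k) y) :=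
          (h1 (interior (L i)) isOpen_interior _ _ e1 e1).2.2.1 (1 - t k) (by linarith)
        have e3 : PshOn (interior (L i)) (fun y => t k * K.ρ i y +
            (κ * t k) * (5 / 8 * (K.R i) ^ 2 - nsq (y - K.c i))) := by
          apply R3_quad h3 (interior (L i)) isOpen_interior (K.ρ i) ((K.ρ_smooth i).mono hsub)
          intro y hy ξ
          have a1 := hC1 i y (interior_subset hy) ξ
          have a2 : lap (fun y => nsq (y - K.c i)) y ξ ≤ C i * lap (K.ρ i) y ξ := (le_abs_self _).trans a1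
          have a3 : 0 ≤ lap (K.ρ i) y ξ := by
            by_cases hξ : ξ = 0
            · have h0 : lap (K.ρ i) y 0 = 0 := by
                have := S5_lap_smul (K.ρ i) y 0 0
                simpa using this
              rw [hξ, h0]
            · exact (K.ρ_pos i _ (hsub hy) ξ hξ).le
          calc (κ * t k) * lap (fun y => nsq (y - K.c i)) y ξ ≤ (κ * t k) * (C i * lap (K.ρ i) y ξ) :=
                mul_le_mul_of_nonneg_left a2 (by positivity)
            _ = (κ * C i) * (t k * lap (K.ρ i) y ξ) := by ring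
            _ ≤ 1 * (t k * lap (K.ρ i) y ξ) := mul_le_mul_of_nonneg_right (hκ1 i) (by positivity)
            _ = t k * lap (K.ρ i) y ξ := one_mul _
        have e4 := (h1 (interior (L i)) isOpen_interior _ _ e2 e3).2.1
        have e5 : (fun z => K.ρ i z + v i z) = (fun y => (1 - t k) * cv χ (K.pot i φ) (δ k) y +
            (t k * K.ρ i y + (κ * t k) * (5 / 8 * (K.R i) ^ 2 - nsq (y - K.c i)))) := by
          funext z
          rw [hv]
          ring
        have e6 : ContDiffOn ℝ 2 (fun z => K.ρ i z + v i z) (interior (L i)) :=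
          (((K.ρ_smooth i).mono hsub).add (hvs i)).of_le S1_two_le
        rw [← e5] at e4
        exact (h3.2 (interior (L i)) _ isOpen_interior e6).1 e4 y hy ξ)
      (by
        intro i x hx hxs
        obtain ⟨j, hjx, hjb⟩ := K.cover x
        refine ⟨j, hjx, hbal j hjb, ?_⟩
        have e0 : nsq (K.e i x - K.c i) = (K.R i) ^ 2 := hxs
        have e1 := (abs_le.1 (hD1 k i j (δ k) (hδ0 k) (hδD k) x hx hjx (by exact e0.le)
          (hcb j (hbal j hjb)))).2
        have e2 : nsq (K.e j x - K.c j) < (K.R j / 2) ^ 2 := hjb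
        rw [hvx, hvx, e0]
        have p : 0 < κ * t k := by positivity
        have q1 : κ * t k * r2 ≤ κ * t k * (K.R i) ^ 2 := mul_le_mul_of_nonneg_left (hr i) p.le
        have q2 : κ * t k * r2 ≤ κ * t k * (K.R j) ^ 2 := mul_le_mul_of_nonneg_left (hr j) p.le
        have q3 : κ * t k * nsq (K.e j x - K.c j) < κ * t k * (K.R j / 2) ^ 2 := mul_lt_mul_of_pos_left e2 p
        have q4 : (1 - t k) * (a i (δ k) x - a j (δ k) x) ≤ κ * t k * r2 / 8 := by
          have z1 : (1 - t k) * (a i (δ k) x - a j (δ k) x) ≤ (1 - t k) * (κ * t k * r2 / 8) :=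
            mul_le_mul_of_nonneg_left e1 (by linarith)
          have z2 : 0 < κ * t k * r2 / 8 := by positivity
          nlinarith
        have q5 : s0 * t k ≤ κ * t k * r2 / 16 := by
          have := mul_le_mul_of_nonneg_right hs2 tk0.le
          linarith
        have q6 : 0 < κ * t k * r2 := by positivity
        nlinarith)
    refine ⟨h, hPS, fun x => ⟨fun i hi hb => ?_, ?_⟩⟩
    · have := (hh x).1 i hi hb
      rwa [hvx] at this
    · obtain ⟨i, hi, hb, hle⟩ := (hh x).2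
      rw [hvx] at hle
      exact ⟨i, hi, hb, hle⟩
  choose h hPS hh using hglue
  set C1 : ℝ := κ * Rm with hC1def
  have hC1n : 0 ≤ C1 := by positivity
  have hq : ∀ i, ∀ x, K.e i x ∈ cbal (K.c i) (K.R i) → ∀ k,
      |κ * t k * (5 / 8 * (K.R i) ^ 2 - nsq (K.e i x - K.c i))| ≤ t k * C1 := by
    intro i x hxb k
    have e1 : nsq (K.e i x - K.c i) ≤ (K.R i) ^ 2 := hxb
    have e2 : 0 ≤ nsq (K.e i x - K.c i) := K3_nsq_nonneg _
    have p : 0 < κ * t k := by have := ht0 k; positivity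
    have e3 : |5 / 8 * (K.R i) ^ 2 - nsq (K.e i x - K.c i)| ≤ Rm := by
      have := hRm1 i
      have := sq_nonneg (K.R i)
      rw [abs_le]
      constructor <;> linarith
    rw [abs_mul, abs_of_pos p]
    calc κ * t k * |5 / 8 * (K.R i) ^ 2 - nsq (K.e i x - K.c i)| ≤ κ * t k * Rm :=
          mul_le_mul_of_nonneg_left e3 p.le
      _ = t k * C1 := by rw [hC1def]; ring
  have hlow : ∀ k x i, x ∈ (K.e i).source → K.e i x ∈ cbal (K.c i) (K.R i) →
      (1 - t k) * a i (δ k) x - t k * C1 ≤ h k x := by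
    intro k x i hi hb
    have e1 := (hh k x).1 i hi hb
    have e2 := (abs_le.1 (hq i x hb k)).1
    linarith
  have hupp : ∀ k x, ∃ i, x ∈ (K.e i).source ∧ K.e i x ∈ cbal (K.c i) (K.R i) ∧
      h k x ≤ (1 - t k) * a i (δ k) x + t k * C1 + t k := by
    intro k x
    obtain ⟨i, hi, hb, hle⟩ := (hh k x).2
    refine ⟨i, hi, hcb i hb, ?_⟩
    have e2 := (abs_le.1 (hq i x (hcb i hb) k)).2
    have e3 : s0 * t k ≤ t k := by
      have := ht0 k
      nlinarith
    linarith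
  set C2' : ℝ := Bm + 2 * C1 + 1 with hC2def
  have hC2n : 0 ≤ C2' := by
    have := abs_nonneg m0
    positivity
  refine ⟨fun k x => h k x + 2 * C2' * t k, ?_, ?_, ?_⟩
  · intro k
    exact S9_add_const K _ (hPS k) _
  · intro k x
    obtain ⟨i, hi, hb, hle⟩ := hupp (k + 1) x
    have e1 := hlow k x i hi hb
    have e2 := hamono i x hi hb (δ (k + 1)) (δ k) (hδ0 _) (hδdec k) (hδ00' k)
    have e3 := (abs_le.1 (habs i x hi hb (δ (k + 1)) (hδ0 _) (hδ00' _))).2
    have tk0 := ht0 k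
    have tk1 := ht1 k
    rw [hts] at hle
    show h (k + 1) x + 2 * C2' * t (k + 1) ≤ h k x + 2 * C2' * t k
    rw [hts]
    have e4 : (1 - t k) * a i (δ (k + 1)) x ≤ (1 - t k) * a i (δ k) x :=
      mul_le_mul_of_nonneg_left e2 (by linarith)
    have e5 : t k / 2 * a i (δ (k + 1)) x ≤ t k / 2 * Bm := mul_le_mul_of_nonneg_left e3 (by positivity)
    have e6 : 0 ≤ t k * Bm := by
      have := abs_nonneg m0
      positivity
    have e7 : 0 ≤ t k * C1 := by positivity
    rw [hC2def]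
    nlinarith
  · intro x
    have hal : ∀ i, x ∈ (K.e i).source → K.e i x ∈ cbal (K.c i) (K.R i) →
        Tendsto (fun k => a i (δ k) x) atTop (𝓝 (φ x)) := by
      intro i hi hb
      have e1 := (hlim i (K.e i x) (hKW i hb)).comp hδlim
      rw [hpotx i x hi] at e1
      have e2 := e1.sub_const (K.ρ i (K.e i x))
      rw [add_sub_cancel_left] at e2
      rw [ha]
      exact e2
    rw [tendsto_order]
    constructor
    · intro b hb
      obtain ⟨i, hi, hib⟩ := K.cover x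
      have hib' := hcb i (hbal i hib)
      have e1 : Tendsto (fun k => (1 - t k) * a i (δ k) x - t k * C1) atTop (𝓝 ((1 - 0) * φ x - 0 * C1)) :=
        ((tendsto_const_nhds.sub htl).mul (hal i hi hib')).sub (htl.mul_const _)
      rw [sub_zero, one_mul, zero_mul, sub_zero] at e1
      filter_upwards [e1.eventually (lt_mem_nhds hb)] with k hk
      have e2 := hlow k x i hi hib'
      have e3 : 0 ≤ 2 * C2' * t k := by have := ht0 k; positivity
      linarith
    · intro b hb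
      have e0 : ∀ i, ∀ᶠ k in atTop, x ∈ (K.e i).source → K.e i x ∈ cbal (K.c i) (K.R i) →
          (1 - t k) * a i (δ k) x + t k * C1 + t k + 2 * C2' * t k < b := by
        intro i
        by_cases hi : x ∈ (K.e i).source ∧ K.e i x ∈ cbal (K.c i) (K.R i)
        · have e1 : Tendsto (fun k => (1 - t k) * a i (δ k) x + t k * C1 + t k + 2 * C2' * t k) atTop
              (𝓝 ((1 - 0) * φ x + 0 * C1 + 0 + 2 * C2' * 0)) :=
            ((((tendsto_const_nhds.sub htl).mul (hal i hi.1 hi.2)).add (htl.mul_const _)).add htl).add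
              (htl.const_mul _)
          have e2 : (1 - 0) * φ x + 0 * C1 + 0 + 2 * C2' * 0 = φ x := by ring
          rw [e2] at e1
          filter_upwards [e1.eventually (gt_mem_nhds hb)] with k hk _ _
          exact hk
        · exact Eventually.of_forall (fun k h1 h2 => absurd ⟨h1, h2⟩ hi)
      filter_upwards [eventually_all.2 e0] with k hk
      obtain ⟨i, hi, hb', hle⟩ := hupp k x
      have := hk i hi hb'
      linarith

end

end MAP
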